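import Pool.Agent.Lib.MP_b0105e_co_h10.Rec

/-!
The two limits of the minors.
-/

namespace B0105e

open Matrix Finset Filter Topology

/-- continuity of a minor along a filter -/
lemma tendsto_det {β : Type*} {l : Filter β} {p : ℕ} {F : β → Matrix (Fin p) (Fin p) ℝ}
    {A : Matrix (Fin p) (Fin p) ℝ} (h : ∀ i j, Tendsto (fun x => F x i j) l (𝓝 (A i j))) :
    Tendsto (fun x => (F x).det) l (𝓝 A.det) := by
  have h1 : Tendsto F l (𝓝 A) :=
    tendsto_pi_nhds.mpr (fun i => tendsto_pi_nhds.mpr (fun j => h i j))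
  have h2 : Continuous (fun B : Matrix (Fin p) (Fin p) ℝ => B.det) := continuous_id.matrix_det
  exact (h2.tendsto A).comp h1

/-! ### order to infinity, fixed rows -/

lemma tendsto_al_ratio_step (n k : ℕ) :
    Tendsto (fun a : ℕ => ((n : ℝ) + 2 + a * (k + 2)) / ((n : ℝ) + 2 + a * (k + 1))) atTop
      (𝓝 (((k : ℝ) + 2) / ((k : ℝ) + 1))) := by
  have h0 : Tendsto (fun a : ℕ => ((a : ℝ))⁻¹) atTop (𝓝 0) := tendsto_inv_atTop_nhds_zero_nat
  have h1 : Tendsto (fun a : ℕ => (((n : ℝ) + 2) * (a : ℝ)⁻¹ + (k + 2)) /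
      (((n : ℝ) + 2) * (a : ℝ)⁻¹ + (k + 1))) atTop
      (𝓝 ((((n : ℝ) + 2) * 0 + (k + 2)) / (((n : ℝ) + 2) * 0 + (k + 1)))) := by
    apply Tendsto.div
    · exact (h0.const_mul _).add_const _
    · exact (h0.const_mul _).add_const _
    · have : (0 : ℝ) < (n + 2) * 0 + (k + 1) := by positivity
      exact this.ne'
  have h2 : (((n : ℝ) + 2) * 0 + (k + 2)) / (((n : ℝ) + 2) * 0 + (k + 1)) =
      ((k : ℝ) + 2) / ((k : ℝ) + 1) := by
    rw [mul_zero, zero_add, zero_add]
  rw [h2] at h1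
  refine h1.congr' ?_
  filter_upwards [eventually_gt_atTop 0] with a ha
  have ha' : (0 : ℝ) < a := by exact_mod_cast ha
  have hd : (0 : ℝ) < ((n : ℝ) + 2) * (a : ℝ)⁻¹ + (k + 1) := by positivity
  have hd2 : (0 : ℝ) < (n : ℝ) + 2 + a * (k + 1) := by positivity
  rw [div_eq_div_iff hd.ne' hd2.ne']
  field_simp

lemma tendsto_al_ratio (k d : ℕ) :
    Tendsto (fun a : ℕ => al a (k + d) k / al a k k) atTop
      (𝓝 ((((k : ℝ) + 2) / ((k : ℝ) + 1)) ^ d)) := by
  induction d with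
  | zero =>
    have : (fun a : ℕ => al a (k + 0) k / al a k k) = fun _ => 1 := by
      funext a
      rw [add_zero, div_self (al_pos a k k).ne']
    rw [this, pow_zero]
    exact tendsto_const_nhds
  | succ d ih =>
    have h1 := ih.mul (tendsto_al_ratio_step (k + d) k)
    rw [← pow_succ] at h1
    refine h1.congr ?_
    intro a
    have h2 := al_succ a (k + d) k
    have hp := al_pos a k k
    have hd2 : (0 : ℝ) < ((k + d : ℕ) : ℝ) + 2 + a * (k + 1) := by positivity
    have h3 : k + (d + 1) = k + d + 1 := by ring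
    rw [h3, div_mul_div_comm, div_eq_div_iff (mul_pos hp hd2).ne' hp.ne']
    linear_combination (-al a k k) * h2

lemma M_diag_succ (a k : ℕ) : M a (k + 1) (k + 1) = al a k k * M a k k := by
  rw [M_succ, M_low a k (k + 1) (by omega)]
  ring

lemma N0_rec (k d : ℕ) : (((k : ℝ) + 2) / ((k : ℝ) + 1)) ^ d * N0 (k + d) k +
    ((k : ℝ) + 2) * N0 (k + d) (k + 1) = N0 (k + d + 1) (k + 1) := by
  have hk : ((k : ℝ) + 1) ≠ 0 := by positivity
  unfold N0
  have h1 : k + d - k = d := by omega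
  have h2 : k + d + 1 - (k + 1) = d := by omega
  rw [h1, h2, Nat.choose_succ_succ, div_pow]
  cases d with
  | zero => simp
  | succ d =>
    have h3 : k + (d + 1) - (k + 1) = d := by omega
    rw [h3]
    push_cast
    have h4 : ((k : ℝ) + 1) ^ (d + 1) ≠ 0 := pow_ne_zero _ hk
    field_simp
    ring

theorem tendsto_M (n : ℕ) : ∀ k : ℕ,
    Tendsto (fun a : ℕ => (M a k k)⁻¹ * M a n k) atTop (𝓝 (N0 n k)) := by
  induction n with
  | zero =>
    intro k
    cases k with
    | zero =>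
      have : (fun a : ℕ => (M a 0 0)⁻¹ * M a 0 0) = fun _ => N0 0 0 := by
        funext a
        rw [M_zero, N0_zero]; norm_num
      rw [this]
      exact tendsto_const_nhds
    | succ k =>
      have : (fun a : ℕ => (M a (k + 1) (k + 1))⁻¹ * M a 0 (k + 1)) = fun _ => N0 0 (k + 1) := by
        funext a
        rw [M_low a 0 (k + 1) (by omega), N0_low 0 (k + 1) (by omega), mul_zero]
      rw [this]
      exact tendsto_const_nhds
  | succ n ih =>
    intro k
    cases k with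
    | zero =>
      have : (fun a : ℕ => (M a 0 0)⁻¹ * M a (n + 1) 0) = fun _ => N0 (n + 1) 0 := by
        funext a
        rw [M_zero, M_zero, N0_zero]; norm_num
      rw [this]
      exact tendsto_const_nhds
    | succ k =>
      by_cases h : k ≤ n
      · obtain ⟨d, rfl⟩ := Nat.exists_eq_add_of_le h
        rw [← N0_rec]
        have h1 := ((tendsto_al_ratio k d).mul (ih k)).add ((ih (k + 1)).const_mul ((k : ℝ) + 2))
        refine h1.congr ?_
        intro a
        rw [M_succ a (k + d) k, M_diag_succ]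
        have h2 := (al_pos a k k).ne'
        have h3 := (M_pos a k k le_rfl).ne'
        field_simp
      · have : (fun a : ℕ => (M a (k + 1) (k + 1))⁻¹ * M a (n + 1) (k + 1)) =
            fun _ => N0 (n + 1) (k + 1) := by
          funext a
          rw [M_low a (n + 1) (k + 1) (by omega), N0_low (n + 1) (k + 1) (by omega), mul_zero]
        rw [this]
        exact tendsto_const_nhds

lemma eventually_order (n j : ℕ) : ∀ᶠ a : ℕ in atTop,
    0 < mnr (M a) (fun i : Fin j => n + (i : ℕ)) (fun i : Fin j => (i : ℕ)) := by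
  have h1 : Tendsto (fun a : ℕ => (Matrix.of fun (i k : Fin j) =>
      (M a (k : ℕ) (k : ℕ))⁻¹ * M a (n + (i : ℕ)) (k : ℕ)).det) atTop
      (𝓝 (Matrix.of fun (i k : Fin j) => N0 (n + (i : ℕ)) (k : ℕ)).det) := by
    apply tendsto_det
    intro i k
    exact tendsto_M _ _
  have h2 := N0_pos j n
  unfold mnr at h2
  filter_upwards [h1.eventually (lt_mem_nhds h2)] with a ha
  have h3 := mnr_scale (M a) (fun _ => 1) (fun k => (M a k k)⁻¹) (fun i : Fin j => n + (i : ℕ))
    (fun i : Fin j => (i : ℕ))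
  have h4 : mnr (fun n k => (fun _ => (1 : ℝ)) n * ((fun k => (M a k k)⁻¹) k * M a n k))
      (fun i : Fin j => n + (i : ℕ)) (fun i : Fin j => (i : ℕ)) =
      (Matrix.of fun (i k : Fin j) =>
        (M a (k : ℕ) (k : ℕ))⁻¹ * M a (n + (i : ℕ)) (k : ℕ)).det := by
    unfold mnr
    congr 1
    ext i k
    simp
  rw [h4] at h3
  rw [h3] at ha
  have h5 : 0 < ∏ i : Fin j, (fun _ => (1 : ℝ)) (n + (i : ℕ)) := by simp
  have h6 := pos_of_mul_pos_right ha h5.le
  have h7 : 0 < ∏ k : Fin j, (fun k => (M a k k)⁻¹) (k : ℕ) :=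
    Finset.prod_pos (fun k _ => inv_pos.mpr (M_pos a k k le_rfl))
  exact pos_of_mul_pos_right h6 h7.le

/-! ### rows to infinity, uniformly in the order -/

lemma M_pow_lower (a n k : ℕ) : ∀ i : ℕ, ((k : ℝ) + 1) ^ i * M a n k ≤ M a (n + i) k := by
  intro i
  induction i with
  | zero => simp
  | succ i ih =>
    have h1 := M_lower a (n + i) k
    have h2 : n + (i + 1) = n + i + 1 := by ring
    rw [h2]
    have hk : (0 : ℝ) ≤ (k : ℝ) + 1 := by positivity
    have h3 := mul_le_mul_of_nonneg_left ih hk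
    calc ((k : ℝ) + 1) ^ (i + 1) * M a n k = ((k : ℝ) + 1) * (((k : ℝ) + 1) ^ i * M a n k) := by ring
      _ ≤ ((k : ℝ) + 1) * M a (n + i) k := h3
      _ ≤ _ := h1

lemma M_pow_upper (a n k : ℕ) (hk : k ≤ n) : ∀ i : ℕ,
    M a (n + i) k ≤ (((k : ℝ) + 1) * (((n : ℝ) + 1) / ((n : ℝ) + 1 - k))) ^ i * M a n k := by
  have hkn : (k : ℝ) ≤ n := by exact_mod_cast hk
  have hpos : (0 : ℝ) < (n : ℝ) + 1 - k := by linarith
  intro i
  induction i with
  | zero => simp
  | succ i ih =>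
    have h1 := M_upper a (n + i) k
    have h2 : n + (i + 1) = n + i + 1 := by ring
    rw [h2]
    have hk0 : (0 : ℝ) ≤ (k : ℝ) := by positivity
    have hi0 : (0 : ℝ) ≤ (i : ℝ) := by positivity
    have hn0 : (0 : ℝ) ≤ (n : ℝ) := by positivity
    have hpos2 : (0 : ℝ) < ((n + i : ℕ) : ℝ) + 1 - k := by push_cast; linarith
    -- ratio bound
    have h3 : M a (n + i + 1) k ≤
        (((k : ℝ) + 1) * (((n : ℝ) + 1) / ((n : ℝ) + 1 - k))) * M a (n + i) k := by
      have h4 : M a (n + i + 1) k ≤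
          (((k : ℝ) + 1) * ((((n + i : ℕ) : ℝ) + 1) / (((n + i : ℕ) : ℝ) + 1 - k))) *
            M a (n + i) k := by
        rw [mul_div_assoc', div_mul_eq_mul_div, le_div_iff₀ hpos2]
        calc M a (n + i + 1) k * (((n + i : ℕ) : ℝ) + 1 - k)
            = (((n + i : ℕ) : ℝ) + 1 - k) * M a (n + i + 1) k := by ring
          _ ≤ _ := h1
          _ = _ := by ring
      refine le_trans h4 ?_
      apply mul_le_mul_of_nonneg_right _ (M_nonneg _ _ _)
      apply mul_le_mul_of_nonneg_left _ (by positivity)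
      rw [div_le_div_iff₀ hpos2 hpos]
      push_cast
      nlinarith
    refine le_trans h3 ?_
    have h5 : (0 : ℝ) ≤ ((k : ℝ) + 1) * (((n : ℝ) + 1) / ((n : ℝ) + 1 - k)) := by positivity
    have h6 := mul_le_mul_of_nonneg_left ih h5
    refine le_trans h6 (le_of_eq ?_)
    ring

/-- the filter of rows going to infinity with arbitrary order -/
def FF : Filter (ℕ × ℕ) := comap Prod.snd atTop

lemma tendsto_upper (k i : ℕ) : Tendsto (fun n : ℕ =>
    (((k : ℝ) + 1) * (((n : ℝ) + 1) / ((n : ℝ) + 1 - k))) ^ i) atTop (𝓝 (((k : ℝ) + 1) ^ i)) := by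
  have h0 : Tendsto (fun n : ℕ => ((n : ℝ))⁻¹) atTop (𝓝 0) := tendsto_inv_atTop_nhds_zero_nat
  have h1 : Tendsto (fun n : ℕ => (1 + 1 * (n : ℝ)⁻¹) / (1 + (1 - (k : ℝ)) * (n : ℝ)⁻¹)) atTop
      (𝓝 ((1 + 1 * 0) / (1 + (1 - (k : ℝ)) * 0))) := by
    apply Tendsto.div
    · exact (h0.const_mul _).const_add _
    · exact (h0.const_mul _).const_add _
    · norm_num
  have h2 : (1 + 1 * 0) / (1 + (1 - (k : ℝ)) * 0) = 1 := by norm_num
  rw [h2] at h1
  have h3 : Tendsto (fun n : ℕ => ((n : ℝ) + 1) / ((n : ℝ) + 1 - k)) atTop (𝓝 1) := by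
    refine h1.congr' ?_
    filter_upwards [eventually_gt_atTop (k + 1)] with n hn
    have hn' : (k : ℝ) + 1 < n := by exact_mod_cast hn
    have hk0 : (0 : ℝ) ≤ (k : ℝ) := by positivity
    have hn0 : (0 : ℝ) < n := by linarith
    have hd2 : (0 : ℝ) < (n : ℝ) + 1 - k := by linarith
    have hd : (0 : ℝ) < 1 + (1 - (k : ℝ)) * (n : ℝ)⁻¹ := by
      have : 1 + (1 - (k : ℝ)) * (n : ℝ)⁻¹ = ((n : ℝ) + 1 - k) * (n : ℝ)⁻¹ := by
        field_simp
        ring
      rw [this]
      positivity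
    rw [div_eq_div_iff hd.ne' hd2.ne']
    field_simp
    ring
  have h4 := (h3.const_mul ((k : ℝ) + 1)).pow i
  rw [mul_one] at h4
  exact h4

lemma tendsto_ratio_FF (k i : ℕ) :
    Tendsto (fun x : ℕ × ℕ => (M x.1 x.2 k)⁻¹ * M x.1 (x.2 + i) k) FF (𝓝 (((k : ℝ) + 1) ^ i)) := by
  have hup : Tendsto (fun x : ℕ × ℕ =>
      (((k : ℝ) + 1) * (((x.2 : ℝ) + 1) / ((x.2 : ℝ) + 1 - k))) ^ i) FF (𝓝 (((k : ℝ) + 1) ^ i)) :=
    (tendsto_upper k i).comp tendsto_comap
  have hev : ∀ᶠ x : ℕ × ℕ in FF, k ≤ x.2 := tendsto_comap.eventually (eventually_ge_atTop k)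
  refine tendsto_of_tendsto_of_tendsto_of_le_of_le' tendsto_const_nhds hup ?_ ?_
  · filter_upwards [hev] with x hx
    have hp := M_pos x.1 x.2 k hx
    rw [inv_mul_eq_div, le_div_iff₀ hp]
    exact M_pow_lower x.1 x.2 k i
  · filter_upwards [hev] with x hx
    have hp := M_pos x.1 x.2 k hx
    rw [inv_mul_eq_div, div_le_iff₀ hp]
    exact M_pow_upper x.1 x.2 k hx i

lemma vand_pos {p : ℕ} (c : Fin p → ℕ) (hc : StrictMono c) :
    0 < (Matrix.of fun (i j : Fin p) => ((c j : ℝ) + 1) ^ (i : ℕ)).det := by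
  have h1 : (Matrix.of fun (i j : Fin p) => ((c j : ℝ) + 1) ^ (i : ℕ)) =
      (Matrix.vandermonde (fun j => (c j : ℝ) + 1))ᵀ := by
    ext i j
    simp [Matrix.vandermonde_apply, Matrix.transpose_apply]
  rw [h1, Matrix.det_transpose, Matrix.det_vandermonde]
  apply Finset.prod_pos
  intro i _
  apply Finset.prod_pos
  intro j hj
  have h2 : i < j := Finset.mem_Ioi.mp hj
  have h3 : (c i : ℝ) < c j := by exact_mod_cast hc h2
  linarith

lemma eventually_rows {p : ℕ} (c : Fin p → ℕ) (hc : StrictMono c) :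
    ∀ᶠ x : ℕ × ℕ in FF, 0 < mnr (M x.1) (fun i : Fin p => x.2 + (i : ℕ)) c := by
  have h1 : Tendsto (fun x : ℕ × ℕ => (Matrix.of fun (i j : Fin p) =>
      (M x.1 x.2 (c j))⁻¹ * M x.1 (x.2 + (i : ℕ)) (c j)).det) FF
      (𝓝 (Matrix.of fun (i j : Fin p) => ((c j : ℝ) + 1) ^ (i : ℕ)).det) := by
    apply tendsto_det
    intro i k
    exact tendsto_ratio_FF _ _
  have hev : ∀ᶠ x : ℕ × ℕ in FF, ∀ j, c j ≤ x.2 := by
    rw [Filter.eventually_all]
    intro j
    exact tendsto_comap.eventually (eventually_ge_atTop (c j))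
  filter_upwards [h1.eventually (lt_mem_nhds (vand_pos c hc)), hev] with x ha hx
  have h3 := mnr_scale (M x.1) (fun _ => 1) (fun k => (M x.1 x.2 k)⁻¹)
    (fun i : Fin p => x.2 + (i : ℕ)) c
  have h4 : mnr (fun n k => (fun _ => (1 : ℝ)) n * ((fun k => (M x.1 x.2 k)⁻¹) k * M x.1 n k))
      (fun i : Fin p => x.2 + (i : ℕ)) c =
      (Matrix.of fun (i j : Fin p) =>
        (M x.1 x.2 (c j))⁻¹ * M x.1 (x.2 + (i : ℕ)) (c j)).det := by
    unfold mnr
    congr 1
    ext i k
    simp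
  rw [h4] at h3
  rw [h3] at ha
  have h5 : 0 < ∏ i : Fin p, (fun _ => (1 : ℝ)) (x.2 + (i : ℕ)) := by simp
  have h6 := pos_of_mul_pos_right ha h5.le
  have h7 : 0 < ∏ k : Fin p, (fun k => (M x.1 x.2 k)⁻¹) (c k) :=
    Finset.prod_pos (fun k _ => inv_pos.mpr (M_pos _ _ _ (hx k)))
  exact pos_of_mul_pos_right h6 h7.le

/-- a threshold for the rows that is uniform in the order, the size and the columns -/
theorem rows_threshold (m : ℕ) : ∃ n1 : ℕ, ∀ a n : ℕ, n1 ≤ n → ∀ (p : ℕ) (c : Fin p → ℕ),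
    StrictMono c → (∀ i, c i < m) → 0 < mnr (M a) (fun i : Fin p => n + (i : ℕ)) c := by
  have h1 : ∀ᶠ x : ℕ × ℕ in FF, ∀ (q : Fin (m + 1)) (c : Fin (q : ℕ) → Fin m),
      StrictMono (fun i => (c i : ℕ)) →
      0 < mnr (M x.1) (fun i : Fin (q : ℕ) => x.2 + (i : ℕ)) (fun i => (c i : ℕ)) := by
    rw [Filter.eventually_all]
    intro q
    rw [Filter.eventually_all]
    intro c
    by_cases hc : StrictMono (fun i => (c i : ℕ))
    · filter_upwards [eventually_rows _ hc] with x hx _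
      exact hx
    · exact Eventually.of_forall (fun x h => absurd h hc)
  unfold FF at h1
  rw [Filter.eventually_comap] at h1
  obtain ⟨n1, hn1⟩ := Filter.eventually_atTop.mp h1
  refine ⟨n1, fun a n hn p c hc hm => ?_⟩
  have hp : p ≤ m := by
    have h2 := Fintype.card_le_of_injective (fun i => (⟨c i, hm i⟩ : Fin m)) (by
      intro i j hij
      apply hc.injective
      exact Fin.mk.inj_iff.mp hij)
    simpa using h2
  exact hn1 n hn (a, n) rfl ⟨p, by omega⟩ (fun i => ⟨c i, hm i⟩) hc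

/-- all minors of `M` deep enough in the first `m` columns are positive, for every order -/
theorem deep_pos (m : ℕ) : ∃ n1 : ℕ, ∀ a : ℕ, ∀ (p : ℕ) (r c : Fin p → ℕ),
    StrictMono r → StrictMono c → (∀ i, n1 ≤ r i) → (∀ i, c i < m) → 0 < mnr (M a) r c := by
  obtain ⟨n1, h⟩ := rows_threshold m
  refine ⟨n1, fun a p r c hr hc hn hm => ?_⟩
  have h1 := fekete m (fun n k => M a (n1 + n) k) (by
    intro n p c hc hm
    have h2 := h a (n1 + n) (by omega) p c hc hm
    refine lt_of_lt_of_eq h2 ?_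
    apply mnr_congr
    intro i j
    rw [add_assoc]) p (fun i => r i - n1) c (by
      intro i j hij
      have h2 := hr hij
      have h3 := hn i
      simp only
      omega) hc hm
  refine lt_of_lt_of_eq h1 ?_
  apply mnr_congr
  intro i j
  have h3 := hn i
  have h4 : n1 + (r i - n1) = r i := by omega
  simp only [h4]

/-- the first `m` columns of `M` are totally positive once the order is large -/
theorem large_order (m : ℕ) : ∃ a0 : ℕ, ∀ a : ℕ, a0 ≤ a → ∀ (p : ℕ) (r c : Fin p → ℕ),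
    StrictMono r → StrictMono c → (∀ i, c i < m) → 0 ≤ mnr (M a) r c := by
  obtain ⟨n1, h⟩ := rows_threshold m
  have h1 : ∀ᶠ a : ℕ in atTop, ∀ (n : Fin n1) (j : Fin (m + 1)),
      0 < mnr (M a) (fun i : Fin (j : ℕ) => (n : ℕ) + (i : ℕ)) (fun i : Fin (j : ℕ) => (i : ℕ)) := by
    rw [Filter.eventually_all]
    intro n
    rw [Filter.eventually_all]
    intro j
    exact eventually_order n j
  obtain ⟨a0, ha0⟩ := Filter.eventually_atTop.mp h1
  refine ⟨a0, fun a ha => ?_⟩
  apply tp_crit m (M a) (M_low a)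
  intro n j hj
  by_cases hn : n < n1
  · exact ha0 a ha ⟨n, hn⟩ ⟨j, by omega⟩
  · exact h a n (by omega) j _ (fun i k hik => hik) (fun i => by have := i.2; omega)

end B0105e
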