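import Pool.Agent.Lib.MP_b0105e_co_h10.TP

/-!
The limit matrix `C(n,k) (k+1)^(n-k)` has positive minors on consecutive rows and first columns.
-/

namespace B0105e

open Matrix Finset

/-- the limit matrix -/
noncomputable def N0 (n k : ℕ) : ℝ := (n.choose k : ℝ) * ((k : ℝ) + 1) ^ (n - k)

/-- the numbers of idempotent maps -/
noncomputable def X0 (n k : ℕ) : ℝ := (n.choose k : ℝ) * (k : ℝ) ^ (n - k)

lemma W_eq_sum (Y : ℕ → ℕ → ℝ) (k : ℕ) : ∀ n t : ℕ,
    W Y n t k = ∑ l ∈ range (n + 1), (n.choose l : ℝ) * Y (t + l) k := by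
  intro n
  induction n with
  | zero => intro t; simp [W]
  | succ n ih =>
    intro t
    rw [Finset.sum_choose_succ_mul (fun i _ => Y (t + i) k) n]
    simp only [W]
    rw [ih t, ih (t + 1), ]
    congr 1
    apply Finset.sum_congr rfl
    intro l _
    have : t + 1 + l = t + (l + 1) := by ring
    rw [this]

lemma W_X0 (n K : ℕ) : W X0 n 0 K = N0 n K := by
  rw [W_eq_sum]
  simp only [zero_add]
  by_cases h : K ≤ n
  · obtain ⟨d, rfl⟩ := Nat.exists_eq_add_of_le h
    have h1 : K + d + 1 = K + (d + 1) := by ring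
    rw [h1, Finset.sum_range_add]
    rw [Finset.sum_eq_zero (s := range K)]
    · rw [zero_add]
      unfold N0
      have h2 : K + d - K = d := by omega
      rw [h2, add_pow, Finset.mul_sum]
      apply Finset.sum_congr rfl
      intro s hs
      have hs' : s ≤ d := by
        have := Finset.mem_range.mp hs
        omega
      unfold X0
      have h3 : K + s - K = s := by omega
      have h4 := Nat.choose_mul (n := K + d) (k := K + s) (s := K) (by omega) 
      rw [h2, h3] at h4
      have h5 : ((K + d).choose (K + s) : ℝ) * ((K + s).choose K : ℝ) =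
          ((K + d).choose K : ℝ) * (d.choose s : ℝ) := by exact_mod_cast h4
      rw [h3]
      simp only [one_pow, mul_one]
      calc ((K + d).choose (K + s) : ℝ) * (((K + s).choose K : ℝ) * (K : ℝ) ^ s)
          = (((K + d).choose (K + s) : ℝ) * ((K + s).choose K : ℝ)) * (K : ℝ) ^ s := by ring
        _ = _ := by rw [h5]; ring
    · intro l hl
      have hl' := Finset.mem_range.mp hl
      unfold X0
      rw [Nat.choose_eq_zero_of_lt hl']
      simp
  · have h' : n < K := by omega
    unfold N0
    rw [Nat.choose_eq_zero_of_lt h']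
    rw [Finset.sum_eq_zero]
    · simp
    · intro l hl
      have hl' := Finset.mem_range.mp hl
      unfold X0
      rw [Nat.choose_eq_zero_of_lt (by omega : l < K)]
      simp

/-- the scaled shift -/
noncomputable def Z0 (n k : ℕ) : ℝ := ((n : ℝ) + 1) * ((((k : ℝ) + 1)⁻¹) * N0 n k)

lemma Z0_eq (n k : ℕ) : Z0 n k = X0 (n + 1) (k + 1) := by
  unfold Z0 X0 N0
  have h := Nat.add_one_mul_choose_eq n k
  have h' : ((n : ℝ) + 1) * (n.choose k : ℝ) = ((n + 1).choose (k + 1) : ℝ) * ((k : ℝ) + 1) := by
    exact_mod_cast h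
  have h2 : n + 1 - (k + 1) = n - k := by omega
  rw [h2]
  have hk : ((k : ℝ) + 1) ≠ 0 := by positivity
  push_cast
  field_simp
  linear_combination h'

lemma W_shift (n : ℕ) : ∀ t k : ℕ, W Z0 n t k = W X0 n (t + 1) (k + 1) := by
  induction n with
  | zero => intro t k; simp only [W]; exact Z0_eq t k
  | succ n ih =>
    intro t k
    simp only [W]
    rw [ih, ih]

lemma W_Z0 (n k : ℕ) : W Z0 n 0 k = N0 (n + 1) (k + 1) - N0 n (k + 1) := by
  rw [W_shift]
  have h : W X0 (n + 1) 0 (k + 1) = W X0 n 0 (k + 1) + W X0 n (0 + 1) (k + 1) := rfl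
  rw [W_X0, W_X0] at h
  linarith

lemma N0_zero (n : ℕ) : N0 n 0 = 1 := by
  simp [N0]

lemma N0_low (n k : ℕ) (h : n < k) : N0 n k = 0 := by
  unfold N0
  rw [Nat.choose_eq_zero_of_lt h]
  simp

theorem N0_pos (j : ℕ) : ∀ n : ℕ,
    0 < mnr N0 (fun i : Fin j => n + (i : ℕ)) (fun i : Fin j => (i : ℕ)) := by
  induction j using Nat.strong_induction_on with
  | _ j ih =>
    intro n
    cases j with
    | zero => rw [mnr_zero]; exact zero_lt_one
    | succ j =>
      have hne : ∀ n, N0 n 0 ≠ 0 := fun n => by rw [N0_zero]; exact one_ne_zero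
      rw [nev_det N0 hne _ (by simp) n, N0_zero, one_mul]
      have e1 : mnr (nev N0) (fun i : Fin j => n + 1 + (i : ℕ))
          (fun k : Fin j => ((k.succ : Fin (j + 1)) : ℕ)) =
          mnr (fun n k => W Z0 n 0 k) (fun i : Fin j => n + (i : ℕ)) (fun i : Fin j => (i : ℕ)) := by
        apply mnr_congr
        intro i k
        simp only [Fin.val_succ]
        rw [W_Z0]
        have h1 : n + 1 + (i : ℕ) = n + (i : ℕ) + 1 := by ring
        rw [h1]
        simp only [nev, N0_zero]
        ring
      rw [e1]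
      have hZ : ∀ r : Fin j → ℕ, mnr Z0 r (fun i : Fin j => (i : ℕ)) =
          (∏ i, ((r i : ℝ) + 1)) * ((∏ i : Fin j, (((i : ℕ) : ℝ) + 1)⁻¹) *
            mnr N0 r (fun i : Fin j => (i : ℕ))) := by
        intro r
        exact mnr_scale N0 (fun n => (n : ℝ) + 1) (fun k => ((k : ℝ) + 1)⁻¹) r _
      have hcrit := tp_crit j N0 N0_low (fun n i hi => ih i (by omega) n) j
      have h1 : ∀ r : Fin j → ℕ, StrictMono r → 0 ≤ mnr Z0 r (fun i : Fin j => (i : ℕ)) := by
        intro r hr
        rw [hZ]
        have h2 := hcrit r (fun i => (i : ℕ)) hr (fun i j hij => hij) (fun i => i.2)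
        have h3 : 0 ≤ ∏ i, ((r i : ℝ) + 1) := Finset.prod_nonneg (fun i _ => by positivity)
        have h4 : 0 ≤ ∏ i : Fin j, (((i : ℕ) : ℝ) + 1)⁻¹ :=
          Finset.prod_nonneg (fun i _ => by positivity)
        positivity
      refine lt_of_lt_of_le ?_ (cascade Z0 _ h1 _ (by
        intro a b hab
        have : (a : ℕ) < b := hab
        simp only
        omega))
      rw [hZ]
      have h2 := ih j (by omega) n
      have h3 : 0 < ∏ i : Fin j, (((n + (i : ℕ) : ℕ) : ℝ) + 1) :=
        Finset.prod_pos (fun i _ => by positivity)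
      have h4 : 0 < ∏ i : Fin j, (((i : ℕ) : ℝ) + 1)⁻¹ :=
        Finset.prod_pos (fun i _ => by positivity)
      positivity

end B0105e
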