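import Mathlib

/-!
The polynomial identities behind the positivity of the consecutive `4 × 4` minors of the first
four columns.
-/

namespace B0105e

def C0001 (x0 x1 y0 y1 y2 z1 z2 : ℝ) : ℝ :=
  1 * x0 ^ 2 * y0 * y1 * z1 + 4 * x0 ^ 2 * y0 * y1 * z2 - 2 * x0 ^ 2 * y0 * y2 * z1 + 5 * x0 ^ 2 * y1 ^ 2 * z2 - 1 * x0 * x1 * y0 * y1 * z2 - 1 * x0 * x1 * y0 * y2 * z1

def C0002 (x0 x1 x2 y1 y2 z0 z1 z2 : ℝ) : ℝ :=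
  6 * x0 ^ 2 * y1 * z0 + 3 * x0 ^ 2 * y1 * z1 + 13 * x0 ^ 2 * y1 * z2 - 4 * x0 ^ 2 * y2 * z0 - 6 * x0 ^ 2 * y2 * z1 + 1 * x0 * x1 * y1 * z0 - 2 * x0 * x1 * y1 * z2 - 3 * x0 * x1 * y2 * z1 - 1 * x0 * x2 * y1 * z0 + 1 * x1 ^ 2 * y2 * z0

def C0003 (x0 x1 x2 y1 y2 : ℝ) : ℝ :=
  24 * x0 ^ 2 * y1 - 18 * x0 ^ 2 * y2 + 3 * x0 * x1 * y1 - 3 * x0 * x1 * y2 - 3 * x0 * x2 * y1 + 3 * x1 ^ 2 * y2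

def C0011 (x0 x1 x2 y0 y1 y2 z1 z2 : ℝ) : ℝ :=
  -1 * x0 * y0 ^ 2 * z1 + 3 * x0 * y0 ^ 2 * z2 + 3 * x0 * y0 * y1 * z1 + 11 * x0 * y0 * y1 * z2 - 6 * x0 * y0 * y2 * z1 + 8 * x0 * y1 ^ 2 * z2 - 2 * x1 * y0 ^ 2 * z1 - 3 * x1 * y0 ^ 2 * z2 - 2 * x1 * y0 * y1 * z2 - 1 * x1 * y0 * y2 * z1 + 1 * x2 * y0 ^ 2 * z1

def C0012 (x0 x1 x2 y0 y1 y2 z0 z1 z2 : ℝ) : ℝ :=
  2 * x0 * y0 * z0 - 5 * x0 * y0 * z1 + 21 * x0 * y0 * z2 + 18 * x0 * y1 * z0 + 9 * x0 * y1 * z1 + 37 * x0 * y1 * z2 - 10 * x0 * y2 * z0 - 18 * x0 * y2 * z1 - 5 * x1 * y0 * z0 - 10 * x1 * y0 * z1 - 15 * x1 * y0 * z2 + 2 * x1 * y1 * z0 - 4 * x1 * y1 * z2 + 3 * x1 * y2 * z0 - 3 * x1 * y2 * z1 + 1 * x2 * y0 * z0 + 5 * x2 * y0 * z1 - 2 * x2 * y1 * z0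

def C0013 (x0 x1 x2 y0 y1 y2 : ℝ) : ℝ :=
  6 * x0 * y0 + 72 * x0 * y1 - 48 * x0 * y2 - 24 * x1 * y0 + 6 * x1 * y1 + 6 * x1 * y2 + 6 * x2 * y0 - 6 * x2 * y1

def C0022 (x0 x1 x2 z0 z1 z2 : ℝ) : ℝ :=
  12 * x0 * z0 - 6 * x0 * z1 + 36 * x0 * z2 - 6 * x1 * z0 - 12 * x1 * z1 - 18 * x1 * z2 + 6 * x2 * z1

def C0023 (x0 x1 x2 : ℝ) : ℝ :=
  42 * x0 - 36 * x1 + 6 * x2

def C0111 (y0 y1 y2 z1 z2 : ℝ) : ℝ :=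
  -2 * y0 ^ 2 * z1 + 2 * y0 * y1 * z1 + 6 * y0 * y1 * z2 - 4 * y0 * y2 * z1 + 4 * y1 ^ 2 * z2

def C0112 (y0 y1 y2 z0 z1 z2 : ℝ) : ℝ :=
  -2 * y0 * z0 - 10 * y0 * z1 + 6 * y0 * z2 + 12 * y1 * z0 + 6 * y1 * z1 + 22 * y1 * z2 - 4 * y2 * z0 - 12 * y2 * z1

def C0113 (y0 y1 y2 : ℝ) : ℝ :=
  -12 * y0 + 48 * y1 - 24 * y2

def C0122 (z0 z1 z2 : ℝ) : ℝ :=
  6 * z0 - 12 * z1 + 18 * z2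

lemma C0001_nonneg (m a X Y Z x0 x1 y0 y1 y2 z1 z2 : ℝ) (hm : 0 ≤ m) (ha : 0 ≤ a) (hX : 0 ≤ X) (hY : 0 ≤ Y) (hZ : 0 ≤ Z)
    (hx0 : x0 = X * (m + 2 + 1 * a) * (m + 3 + 1 * a))
    (hx1 : x1 = X * (m + 2 + 2 * a) * (m + 3 + 1 * a))
    (hy0 : y0 = Y * (m + 2 + 2 * a) * (m + 3 + 2 * a))
    (hy1 : y1 = Y * (m + 2 + 3 * a) * (m + 3 + 2 * a))
    (hy2 : y2 = Y * (m + 2 + 3 * a) * (m + 3 + 3 * a))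
    (hz1 : z1 = Z * (m + 2 + 4 * a) * (m + 3 + 3 * a))
    (hz2 : z2 = Z * (m + 2 + 4 * a) * (m + 3 + 4 * a)) :
    0 ≤ C0001 x0 x1 y0 y1 y2 z1 z2 := by
  subst hx0 hx1 hy0 hy1 hy2 hz1 hz2
  have key : C0001 (X * (m + 2 + 1 * a) * (m + 3 + 1 * a)) (X * (m + 2 + 2 * a) * (m + 3 + 1 * a)) (Y * (m + 2 + 2 * a) * (m + 3 + 2 * a)) (Y * (m + 2 + 3 * a) * (m + 3 + 2 * a)) (Y * (m + 2 + 3 * a) * (m + 3 + 3 * a)) (Z * (m + 2 + 4 * a) * (m + 3 + 3 * a)) (Z * (m + 2 + 4 * a) * (m + 3 + 4 * a)) = ((46656 + 421200 * a ^ 1 + 1637496 * a ^ 2 + 3604428 * a ^ 3 + 4969062 * a ^ 4 + 4481560 * a ^ 5 + 2679686 * a ^ 6 + 1050472 * a ^ 7 + 258912 * a ^ 8 + 36320 * a ^ 9 + 2208 * a ^ 10 + 194400 * m ^ 1 + 1569888 * m ^ 1 * a ^ 1 + 5393412 * m ^ 1 * a ^ 2 +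 10330476 * m ^ 1 * a ^ 3 + 12144315 * m ^ 1 * a ^ 4 + 9084284 * m ^ 1 * a ^ 5 + 4326539 * m ^ 1 * a ^ 6 + 1266850 * m ^ 1 * a ^ 7 + 207348 * m ^ 1 * a ^ 8 + 14488 * m ^ 1 * a ^ 9 + 362880 * m ^ 2 + 2588760 * m ^ 2 * a ^ 1 + 7735770 * m ^ 2 * a ^ 2 + 12628351 * m ^ 2 * a ^ 3 + 12305628 * m ^ 2 * a ^ 4 + 7327635 * m ^ 2 * a ^ 5 + 2605412 * m ^ 2 * a ^ 6 + 506386 * m ^ 2 * a ^ 7 + 41268 * m ^ 2 * a ^ 8 + 399600 * m ^ 3 + 2478792 * m ^ 3 * a ^ 1 + 6310671 * m ^ 3 * a ^ 2 + 8535324 * m ^ 3 * a ^ 3 + 6617406 * m ^ 3 * a ^ 4 + 2940236 * m ^ 3 * a ^ 5 + 693610 * m ^ 3 * a ^ 6 + 67098 * m ^ 3 * a ^ 7 + 287460 * m ^ 4 + 1518805 * m ^ 4 * a ^ 1 + 3202564 * m ^ 4 * a ^ 2 + 3444883 * m ^ 4 * a ^ 3 + 1991917 * m ^ 4 * a ^ 4 + 586925 * m ^ 4 * a ^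 5 + 68885 * m ^ 4 * a ^ 6 + 141150 * m ^ 5 + 617548 * m ^ 5 * a ^ 1 + 1035331 * m ^ 5 * a ^ 2 + 830290 * m ^ 5 * a ^ 3 + 318246 * m ^ 5 * a ^ 4 + 46634 * m ^ 5 * a ^ 5 + 47910 * m ^ 6 + 166630 * m ^ 6 * a ^ 1 + 208227 * m ^ 6 * a ^ 2 + 110660 * m ^ 6 * a ^ 3 + 21086 * m ^ 6 * a ^ 4 + 11100 * m ^ 7 + 28772 * m ^ 7 * a ^ 1 + 23822 * m ^ 7 * a ^ 2 + 6292 * m ^ 7 * a ^ 3 + 1680 * m ^ 8 + 2885 * m ^ 8 * a ^ 1 + 1187 * m ^ 8 * a ^ 2 + 150 * m ^ 9 + 128 * m ^ 9 * a ^ 1 + 6 * m ^ 10) / 1) * X ^ 2 * Y ^ 2 * Z ^ 1 := by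
    unfold C0001
    ring
  rw [key]
  positivity

lemma C0002_nonneg (m a X Y Z x0 x1 x2 y1 y2 z0 z1 z2 : ℝ) (hm : 0 ≤ m) (ha : 0 ≤ a) (hX : 0 ≤ X) (hY : 0 ≤ Y) (hZ : 0 ≤ Z)
    (hx0 : x0 = X * (m + 2 + 1 * a) * (m + 3 + 1 * a))
    (hx1 : x1 = X * (m + 2 + 2 * a) * (m + 3 + 1 * a))
    (hx2 : x2 = X * (m + 2 + 2 * a) * (m + 3 + 2 * a))
    (hy1 : y1 = Y * (m + 2 + 3 * a) * (m + 3 + 2 * a))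
    (hy2 : y2 = Y * (m + 2 + 3 * a) * (m + 3 + 3 * a))
    (hz0 : z0 = Z * (m + 2 + 3 * a) * (m + 3 + 3 * a))
    (hz1 : z1 = Z * (m + 2 + 4 * a) * (m + 3 + 3 * a))
    (hz2 : z2 = Z * (m + 2 + 4 * a) * (m + 3 + 4 * a)) :
    0 ≤ C0002 x0 x1 x2 y1 y2 z0 z1 z2 := by
  subst hx0 hx1 hx2 hy1 hy2 hz0 hz1 hz2
  have key : C0002 (X * (m + 2 + 1 * a) * (m + 3 + 1 * a)) (X * (m + 2 + 2 * a) * (m + 3 + 1 * a)) (X * (m + 2 + 2 * a) * (m + 3 + 2 * a)) (Y * (m + 2 + 3 * a) * (m + 3 + 2 * a)) (Y * (m + 2 + 3 * a) * (m + 3 + 3 * a)) (Z * (m + 2 + 3 * a) * (m + 3 + 3 * a)) (Z * (m + 2 + 4 * a) * (m + 3 + 3 * a)) (Z * (m + 2 + 4 * a) * (m + 3 + 4 * a)) = ((10368 + 66096 * a ^ 1 + 169344 * a ^ 2 + 224424 * a ^ 3 + 165550 * a ^ 4 + 68248 * a ^ 5 + 14686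 * a ^ 6 + 1284 * a ^ 7 + 34560 * m ^ 1 + 191160 * m ^ 1 * a ^ 1 + 416592 * m ^ 1 * a ^ 2 + 456960 * m ^ 1 * a ^ 3 + 268060 * m ^ 1 * a ^ 4 + 82450 * m ^ 1 * a ^ 5 + 11782 * m ^ 1 * a ^ 6 + 516 * m ^ 1 * a ^ 7 + 50112 * m ^ 2 + 235548 * m ^ 2 * a ^ 1 + 424392 * m ^ 2 * a ^ 2 + 369742 * m ^ 2 * a ^ 3 + 161652 * m ^ 2 * a ^ 4 + 32980 * m ^ 2 * a ^ 5 + 2350 * m ^ 2 * a ^ 6 + 41280 * m ^ 3 + 160290 * m ^ 3 * a ^ 1 + 229164 * m ^ 3 * a ^ 2 + 148616 * m ^ 3 * a ^ 3 + 43034 * m ^ 3 * a ^ 4 + 4368 * m ^ 3 * a ^ 5 + 21128 * m ^ 4 + 65058 * m ^ 4 * a ^ 1 + 69182 * m ^ 4 * a ^ 2 + 29678 * m ^ 4 * a ^ 3 + 4268 * m ^ 4 * a ^ 4 + 6880 * m ^ 5 + 15750 * m ^ 5 * a ^ 1 + 11072 * m ^ 5 * a ^ 2 + 2356 * m ^ 5 * a ^ 3 + 1392 * m ^ 6 + 2106 * m ^ 6 * a ^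 1 + 734 * m ^ 6 * a ^ 2 + 160 * m ^ 7 + 120 * m ^ 7 * a ^ 1 + 8 * m ^ 8) / 1) * X ^ 2 * Y ^ 1 * Z ^ 1 := by
    unfold C0002
    ring
  rw [key]
  positivity

lemma C0011_nonneg (m a X Y Z x0 x1 x2 y0 y1 y2 z1 z2 : ℝ) (hm : 0 ≤ m) (ha : 0 ≤ a) (hX : 0 ≤ X) (hY : 0 ≤ Y) (hZ : 0 ≤ Z)
    (hx0 : x0 = X * (m + 2 + 1 * a) * (m + 3 + 1 * a))
    (hx1 : x1 = X * (m + 2 + 2 * a) * (m + 3 + 1 * a))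
    (hx2 : x2 = X * (m + 2 + 2 * a) * (m + 3 + 2 * a))
    (hy0 : y0 = Y * (m + 2 + 2 * a) * (m + 3 + 2 * a))
    (hy1 : y1 = Y * (m + 2 + 3 * a) * (m + 3 + 2 * a))
    (hy2 : y2 = Y * (m + 2 + 3 * a) * (m + 3 + 3 * a))
    (hz1 : z1 = Z * (m + 2 + 4 * a) * (m + 3 + 3 * a))
    (hz2 : z2 = Z * (m + 2 + 4 * a) * (m + 3 + 4 * a)) :
    0 ≤ C0011 x0 x1 x2 y0 y1 y2 z1 z2 := by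
  subst hx0 hx1 hx2 hy0 hy1 hy2 hz1 hz2
  have key : C0011 (X * (m + 2 + 1 * a) * (m + 3 + 1 * a)) (X * (m + 2 + 2 * a) * (m + 3 + 1 * a)) (X * (m + 2 + 2 * a) * (m + 3 + 2 * a)) (Y * (m + 2 + 2 * a) * (m + 3 + 2 * a)) (Y * (m + 2 + 3 * a) * (m + 3 + 2 * a)) (Y * (m + 2 + 3 * a) * (m + 3 + 3 * a)) (Z * (m + 2 + 4 * a) * (m + 3 + 3 * a)) (Z * (m + 2 + 4 * a) * (m + 3 + 4 * a)) = ((14256 + 115992 * a ^ 1 + 393984 * a ^ 2 + 726972 * a ^ 3 + 794072 * a ^ 4 + 524188 * a ^ 5 + 203960 * a ^ 6 + 42832 * a ^ 7 + 3744 * a ^ 8 + 47520 * m ^ 1 + 335772 * m ^ 1 * a ^ 1 + 970416 * m ^ 1 * a ^ 2 + 1481924 * m ^ 1 * a ^ 3 + 1287274 * m ^ 1 * a ^ 4 + 634502 * m ^ 1 * a ^ 5 + 164168 * m ^ 1 * a ^ 6 + 17224 * m ^ 1 * a ^ 7 + 68904 * m ^ 2 + 414126 * m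 ^ 2 * a ^ 1 + 989916 * m ^ 2 * a ^ 2 + 1200757 * m ^ 2 * a ^ 3 + 777305 * m ^ 2 * a ^ 4 + 254110 * m ^ 2 * a ^ 5 + 32752 * m ^ 2 * a ^ 6 + 56760 * m ^ 3 + 282081 * m ^ 3 * a ^ 1 + 535312 * m ^ 3 * a ^ 2 + 483433 * m ^ 3 * a ^ 3 + 207239 * m ^ 3 * a ^ 4 + 33682 * m ^ 3 * a ^ 5 + 29051 * m ^ 4 + 114601 * m ^ 4 * a ^ 1 + 161855 * m ^ 4 * a ^ 2 + 96720 * m ^ 4 * a ^ 3 + 20588 * m ^ 4 * a ^ 4 + 9460 * m ^ 5 + 27771 * m ^ 5 * a ^ 1 + 25946 * m ^ 5 * a ^ 2 + 7694 * m ^ 5 * a ^ 3 + 1914 * m ^ 6 + 3717 * m ^ 6 * a ^ 1 + 1723 * m ^ 6 * a ^ 2 + 220 * m ^ 7 + 212 * m ^ 7 * a ^ 1 + 11 * m ^ 8) / 1) * X ^ 1 * Y ^ 2 * Z ^ 1 := by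
    unfold C0011
    ring
  rw [key]
  positivity

lemma C0012_nonneg (m a X Y Z x0 x1 x2 y0 y1 y2 z0 z1 z2 : ℝ) (hm : 0 ≤ m) (ha : 0 ≤ a) (hX : 0 ≤ X) (hY : 0 ≤ Y) (hZ : 0 ≤ Z)
    (hx0 : x0 = X * (m + 2 + 1 * a) * (m + 3 + 1 * a))
    (hx1 : x1 = X * (m + 2 + 2 * a) * (m + 3 + 1 * a))
    (hx2 : x2 = X * (m + 2 + 2 * a) * (m + 3 + 2 * a))
    (hy0 : y0 = Y * (m + 2 + 2 * a) * (m + 3 + 2 * a))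
    (hy1 : y1 = Y * (m + 2 + 3 * a) * (m + 3 + 2 * a))
    (hy2 : y2 = Y * (m + 2 + 3 * a) * (m + 3 + 3 * a))
    (hz0 : z0 = Z * (m + 2 + 3 * a) * (m + 3 + 3 * a))
    (hz1 : z1 = Z * (m + 2 + 4 * a) * (m + 3 + 3 * a))
    (hz2 : z2 = Z * (m + 2 + 4 * a) * (m + 3 + 4 * a)) :
    0 ≤ C0012 x0 x1 x2 y0 y1 y2 z0 z1 z2 := by
  subst hx0 hx1 hx2 hy0 hy1 hy2 hz0 hz1 hz2
  have key : C0012 (X * (m + 2 + 1 * a) * (m + 3 + 1 * a)) (X * (m + 2 + 2 * a) * (m + 3 + 1 * a)) (X * (m + 2 + 2 * a) * (m + 3 + 2 * a)) (Y * (m + 2 + 2 * a) * (m + 3 + 2 * a)) (Y * (m + 2 + 3 * a) * (m + 3 + 2 * a)) (Y * (m + 2 + 3 * a) * (m + 3 + 3 * a)) (Z * (m + 2 + 3 * a) * (m + 3 + 3 * a)) (Z * (m + 2 + 4 * a) * (m + 3 + 3 * a)) (Z * (m + 2 + 4 * a) * (m + 3 + 4 *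 a)) = ((5616 + 31428 * a ^ 1 + 66342 * a ^ 2 + 65214 * a ^ 3 + 29836 * a ^ 4 + 5612 * a ^ 5 + 312 * a ^ 6 + 14040 * m ^ 1 + 64908 * m ^ 1 * a ^ 1 + 108979 * m ^ 1 * a ^ 2 + 80440 * m ^ 1 * a ^ 3 + 25038 * m ^ 1 * a ^ 4 + 2537 * m ^ 1 * a ^ 5 + 14508 * m ^ 2 + 53181 * m ^ 2 * a ^ 1 + 66536 * m ^ 2 * a ^ 2 + 32703 * m ^ 2 * a ^ 3 + 5161 * m ^ 2 * a ^ 4 + 7930 * m ^ 3 + 21606 * m ^ 3 * a ^ 1 + 17894 * m ^ 3 * a ^ 2 + 4385 * m ^ 3 * a ^ 3 + 2418 * m ^ 4 + 4353 * m ^ 4 * a ^ 1 + 1789 * m ^ 4 * a ^ 2 + 390 * m ^ 5 + 348 * m ^ 5 * a ^ 1 + 26 * m ^ 6) / 1) * X ^ 1 * Y ^ 1 * Z ^ 1 := by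
    unfold C0012
    ring
  rw [key]
  positivity

lemma C0111_nonneg (m a Y Z y0 y1 y2 z1 z2 : ℝ) (hm : 0 ≤ m) (ha : 0 ≤ a) (hY : 0 ≤ Y) (hZ : 0 ≤ Z)
    (hy0 : y0 = Y * (m + 2 + 2 * a) * (m + 3 + 2 * a))
    (hy1 : y1 = Y * (m + 2 + 3 * a) * (m + 3 + 2 * a))
    (hy2 : y2 = Y * (m + 2 + 3 * a) * (m + 3 + 3 * a))
    (hz1 : z1 = Z * (m + 2 + 4 * a) * (m + 3 + 3 * a))
    (hz2 : z2 = Z * (m + 2 + 4 * a) * (m + 3 + 4 * a)) :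
    0 ≤ C0111 y0 y1 y2 z1 z2 := by
  subst hy0 hy1 hy2 hz1 hz2
  have key : C0111 (Y * (m + 2 + 2 * a) * (m + 3 + 2 * a)) (Y * (m + 2 + 3 * a) * (m + 3 + 2 * a)) (Y * (m + 2 + 3 * a) * (m + 3 + 3 * a)) (Z * (m + 2 + 4 * a) * (m + 3 + 3 * a)) (Z * (m + 2 + 4 * a) * (m + 3 + 4 * a)) = ((1296 + 9936 * a ^ 1 + 30576 * a ^ 2 + 48200 * a ^ 3 + 40960 * a ^ 4 + 17760 * a ^ 5 + 3072 * a ^ 6 + 3240 * m ^ 1 + 20448 * m ^ 1 * a ^ 1 + 49660 * m ^ 1 * a ^ 2 + 57844 * m ^ 1 * a ^ 3 + 32248 * m ^ 1 * a ^ 4 + 6880 * m ^ 1 * a ^ 5 + 3348 * m ^ 2 + 16692 * m ^ 2 * a ^ 1 + 29986 * m ^ 2 * a ^ 2 + 22940 * m ^ 2 * a ^ 3 + 6296 * m ^ 2 * a ^ 4 + 1830 * m ^ 3 + 6756 * m ^ 3 * a ^ 1 + 7980 * m ^ 3 * a ^ 2 + 3008 * m ^ 3 * a ^ 3 + 558 * m ^ 4 + 1356 * m ^ 4 *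 a ^ 1 + 790 * m ^ 4 * a ^ 2 + 90 * m ^ 5 + 108 * m ^ 5 * a ^ 1 + 6 * m ^ 6) / 1) * Y ^ 2 * Z ^ 1 := by
    unfold C0111
    ring
  rw [key]
  positivity

lemma C0112_nonneg (m a Y Z y0 y1 y2 z0 z1 z2 : ℝ) (hm : 0 ≤ m) (ha : 0 ≤ a) (hY : 0 ≤ Y) (hZ : 0 ≤ Z)
    (hy0 : y0 = Y * (m + 2 + 2 * a) * (m + 3 + 2 * a))
    (hy1 : y1 = Y * (m + 2 + 3 * a) * (m + 3 + 2 * a))
    (hy2 : y2 = Y * (m + 2 + 3 * a) * (m + 3 + 3 * a))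
    (hz0 : z0 = Z * (m + 2 + 3 * a) * (m + 3 + 3 * a))
    (hz1 : z1 = Z * (m + 2 + 4 * a) * (m + 3 + 3 * a))
    (hz2 : z2 = Z * (m + 2 + 4 * a) * (m + 3 + 4 * a)) :
    0 ≤ C0112 y0 y1 y2 z0 z1 z2 := by
  subst hy0 hy1 hy2 hz0 hz1 hz2
  have key : C0112 (Y * (m + 2 + 2 * a) * (m + 3 + 2 * a)) (Y * (m + 2 + 3 * a) * (m + 3 + 2 * a)) (Y * (m + 2 + 3 * a) * (m + 3 + 3 * a)) (Z * (m + 2 + 3 * a) * (m + 3 + 3 * a)) (Z * (m + 2 + 4 * a) * (m + 3 + 3 * a)) (Z * (m + 2 + 4 * a) * (m + 3 + 4 * a)) = ((648 + 3492 * a ^ 1 + 6716 * a ^ 2 + 5320 * a ^ 3 + 1404 * a ^ 4 + 1080 * m ^ 1 + 4278 * m ^ 1 * a ^ 1 + 5344 * m ^ 1 * a ^ 2 + 2044 * m ^ 1 * a ^ 3 + 666 * m ^ 2 + 1722 * m ^ 2 * a ^ 1 + 1048 * m ^ 2 * a ^ 2 + 180 * m ^ 3 + 228 * m ^ 3 * a ^ 1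 + 18 * m ^ 4) / 1) * Y ^ 1 * Z ^ 1 := by
    unfold C0112
    ring
  rw [key]
  positivity

lemma C0113_nonneg (m a Y y0 y1 y2 : ℝ) (hm : 0 ≤ m) (ha : 0 ≤ a) (hY : 0 ≤ Y)
    (hy0 : y0 = Y * (m + 2 + 2 * a) * (m + 3 + 2 * a))
    (hy1 : y1 = Y * (m + 2 + 3 * a) * (m + 3 + 2 * a))
    (hy2 : y2 = Y * (m + 2 + 3 * a) * (m + 3 + 3 * a)) :
    0 ≤ C0113 y0 y1 y2 := by
  subst hy0 hy1 hy2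
  have key : C0113 (Y * (m + 2 + 2 * a) * (m + 3 + 2 * a)) (Y * (m + 2 + 3 * a) * (m + 3 + 2 * a)) (Y * (m + 2 + 3 * a) * (m + 3 + 3 * a)) = ((72 + 144 * a ^ 1 + 24 * a ^ 2 + 60 * m ^ 1 + 48 * m ^ 1 * a ^ 1 + 12 * m ^ 2) / 1) * Y ^ 1 := by
    unfold C0113
    ring
  rw [key]
  positivity

lemma C0122_nonneg (m a Z z0 z1 z2 : ℝ) (hm : 0 ≤ m) (ha : 0 ≤ a) (hZ : 0 ≤ Z)
    (hz0 : z0 = Z * (m + 2 + 3 * a) * (m + 3 + 3 * a))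
    (hz1 : z1 = Z * (m + 2 + 4 * a) * (m + 3 + 3 * a))
    (hz2 : z2 = Z * (m + 2 + 4 * a) * (m + 3 + 4 * a)) :
    0 ≤ C0122 z0 z1 z2 := by
  subst hz0 hz1 hz2
  have key : C0122 (Z * (m + 2 + 3 * a) * (m + 3 + 3 * a)) (Z * (m + 2 + 4 * a) * (m + 3 + 3 * a)) (Z * (m + 2 + 4 * a) * (m + 3 + 4 * a)) = ((72 + 234 * a ^ 1 + 198 * a ^ 2 + 60 * m ^ 1 + 96 * m ^ 1 * a ^ 1 + 12 * m ^ 2) / 1) * Z ^ 1 := by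
    unfold C0122
    ring
  rw [key]
  positivity

lemma K22_nonneg (m a X Z x0 x1 x2 z0 z1 z2 : ℝ) (hm : 0 ≤ m) (ha : 0 ≤ a) (hX : 0 ≤ X) (hZ : 0 ≤ Z)
    (hx0 : x0 = X * (m + 4 + 1 * a) * (m + 5 + 1 * a))
    (hx1 : x1 = X * (m + 4 + 2 * a) * (m + 5 + 1 * a))
    (hx2 : x2 = X * (m + 4 + 2 * a) * (m + 5 + 2 * a))
    (hz0 : z0 = Z * (m + 4 + 3 * a) * (m + 5 + 3 * a))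
    (hz1 : z1 = Z * (m + 4 + 4 * a) * (m + 5 + 3 * a))
    (hz2 : z2 = Z * (m + 4 + 4 * a) * (m + 5 + 4 * a)) :
    0 ≤ C0022 x0 x1 x2 z0 z1 z2 + (m + 2) / 2 * x0 * (C0122 z0 z1 z2) := by
  subst hx0 hx1 hx2 hz0 hz1 hz2
  have key : C0022 (X * (m + 4 + 1 * a) * (m + 5 + 1 * a)) (X * (m + 4 + 2 * a) * (m + 5 + 1 * a)) (X * (m + 4 + 2 * a) * (m + 5 + 2 * a)) (Z * (m + 4 + 3 * a) * (m + 5 + 3 * a)) (Z * (m + 4 + 4 * a) * (m + 5 + 3 * a)) (Z * (m + 4 + 4 * a) * (m + 5 + 4 * a)) + (m + 2) / 2 * (X * (m + 4 + 1 * a) * (m + 5 + 1 * a)) * (C0122 (Z * (m + 4 + 3 * a) * (m + 5 + 3 * a)) (Z * (m + 4 + 4 * a) * (m + 5 + 3 * a)) (Z * (m + 4 + 4 * a) * (m + 5 + 4 * a))) = ((9600 + 18840 * a ^ 1 + 11466 * a ^ 2 + 2016 * a ^ 3 + 126 * a ^ 4 + 11040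 * m ^ 1 + 18138 * m ^ 1 * a ^ 1 + 9315 * m ^ 1 * a ^ 2 + 1608 * m ^ 1 * a ^ 3 + 99 * m ^ 1 * a ^ 4 + 5064 * m ^ 2 + 6489 * m ^ 2 * a ^ 1 + 2409 * m ^ 2 * a ^ 2 + 246 * m ^ 2 * a ^ 3 + 1158 * m ^ 3 + 1023 * m ^ 3 * a ^ 1 + 201 * m ^ 3 * a ^ 2 + 132 * m ^ 4 + 60 * m ^ 4 * a ^ 1 + 6 * m ^ 5) / 1) * X ^ 1 * Z ^ 1 := by
    unfold C0022 C0122
    ring
  rw [key]
  positivity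

lemma K23_nonneg (m a X x0 x1 x2 : ℝ) (hm : 0 ≤ m) (ha : 0 ≤ a) (hX : 0 ≤ X)
    (hx0 : x0 = X * (m + 5 + 1 * a) * (m + 6 + 1 * a))
    (hx1 : x1 = X * (m + 5 + 2 * a) * (m + 6 + 1 * a))
    (hx2 : x2 = X * (m + 5 + 2 * a) * (m + 6 + 2 * a)) :
    0 ≤ C0023 x0 x1 x2 + (m + 3) / 2 * x0 * 12 := by
  subst hx0 hx1 hx2
  have key : C0023 (X * (m + 5 + 1 * a) * (m + 6 + 1 * a)) (X * (m + 5 + 2 * a) * (m + 6 + 1 * a)) (X * (m + 5 + 2 * a) * (m + 6 + 2 * a)) + (m + 3) / 2 * (X * (m + 5 + 1 * a) * (m + 6 + 1 * a)) * 12 = ((900 + 180 * a ^ 1 + 12 * a ^ 2 + 510 * m ^ 1 + 102 * m ^ 1 * a ^ 1 + 6 * m ^ 1 * a ^ 2 + 96 * m ^ 2 + 12 * m ^ 2 * a ^ 1 + 6 * m ^ 3) / 1) * X ^ 1 := by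
    unfold C0023
    ring
  rw [key]
  positivity

lemma K13_nonneg (m a X Y x0 x1 x2 y0 y1 y2 : ℝ) (hm : 0 ≤ m) (ha : 0 ≤ a) (hX : 0 ≤ X) (hY : 0 ≤ Y)
    (hx0 : x0 = X * (m + 5 + 1 * a) * (m + 6 + 1 * a))
    (hx1 : x1 = X * (m + 5 + 2 * a) * (m + 6 + 1 * a))
    (hx2 : x2 = X * (m + 5 + 2 * a) * (m + 6 + 2 * a))
    (hy0 : y0 = Y * (m + 5 + 2 * a) * (m + 6 + 2 * a))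
    (hy1 : y1 = Y * (m + 5 + 3 * a) * (m + 6 + 2 * a))
    (hy2 : y2 = Y * (m + 5 + 3 * a) * (m + 6 + 3 * a)) :
    0 ≤ C0013 x0 x1 x2 y0 y1 y2 + (m + 3) / 2 * x0 * (C0113 y0 y1 y2) := by
  subst hx0 hx1 hx2 hy0 hy1 hy2
  have key : C0013 (X * (m + 5 + 1 * a) * (m + 6 + 1 * a)) (X * (m + 5 + 2 * a) * (m + 6 + 1 * a)) (X * (m + 5 + 2 * a) * (m + 6 + 2 * a)) (Y * (m + 5 + 2 * a) * (m + 6 + 2 * a)) (Y * (m + 5 + 3 * a) * (m + 6 + 2 * a)) (Y * (m + 5 + 3 * a) * (m + 6 + 3 * a)) + (m + 3) / 2 * (X * (m + 5 + 1 * a) * (m + 6 + 1 * a)) * (C0113 (Y * (m + 5 + 2 * a) * (m + 6 + 2 * a)) (Y * (m + 5 + 3 * a) * (m + 6 + 2 * a)) (Y * (m + 5 + 3 * a) * (m + 6 + 3 * a))) = ((32400 + 33660 * a ^ 1 + 9390 * a ^ 2 + 822 * a ^ 3 + 29160 * m ^ 1 + 24402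 * m ^ 1 * a ^ 1 + 5418 * m ^ 1 * a ^ 2 + 414 * m ^ 1 * a ^ 3 + 12 * m ^ 1 * a ^ 4 + 10476 * m ^ 2 + 6624 * m ^ 2 * a ^ 1 + 1038 * m ^ 2 * a ^ 2 + 48 * m ^ 2 * a ^ 3 + 1878 * m ^ 3 + 798 * m ^ 3 * a ^ 1 + 66 * m ^ 3 * a ^ 2 + 168 * m ^ 4 + 36 * m ^ 4 * a ^ 1 + 6 * m ^ 5) / 1) * X ^ 1 * Y ^ 1 := by
    unfold C0013 C0113
    ring
  rw [key]
  positivity

lemma K03_nonneg (m a X Y x0 x1 x2 y0 y1 y2 : ℝ) (hm : 0 ≤ m) (ha : 0 ≤ a) (hX : 0 ≤ X) (hY : 0 ≤ Y)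
    (hx0 : x0 = X * (m + 5 + 1 * a) * (m + 6 + 1 * a))
    (hx1 : x1 = X * (m + 5 + 2 * a) * (m + 6 + 1 * a))
    (hx2 : x2 = X * (m + 5 + 2 * a) * (m + 6 + 2 * a))
    (hy0 : y0 = Y * (m + 5 + 2 * a) * (m + 6 + 2 * a))
    (hy1 : y1 = Y * (m + 5 + 3 * a) * (m + 6 + 2 * a))
    (hy2 : y2 = Y * (m + 5 + 3 * a) * (m + 6 + 3 * a)) :
    0 ≤ C0003 x0 x1 x2 y1 y2 + (m + 3) / 2 * x0 * (C0013 x0 x1 x2 y0 y1 y2 + (m + 3) / 2 * x0 * (C0113 y0 y1 y2)) := by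
  subst hx0 hx1 hx2 hy0 hy1 hy2
  have key : C0003 (X * (m + 5 + 1 * a) * (m + 6 + 1 * a)) (X * (m + 5 + 2 * a) * (m + 6 + 1 * a)) (X * (m + 5 + 2 * a) * (m + 6 + 2 * a)) (Y * (m + 5 + 3 * a) * (m + 6 + 2 * a)) (Y * (m + 5 + 3 * a) * (m + 6 + 3 * a)) + (m + 3) / 2 * (X * (m + 5 + 1 * a) * (m + 6 + 1 * a)) * (C0013 (X * (m + 5 + 1 * a) * (m + 6 + 1 * a)) (X * (m + 5 + 2 * a) * (m + 6 + 1 * a)) (X * (m + 5 + 2 * a) * (m + 6 + 2 * a)) (Y * (m + 5 + 2 * a) * (m + 6 + 2 * a)) (Y * (m + 5 + 3 * a) * (m + 6 + 2 * a)) (Y * (m + 5 + 3 * a) * (m + 6 + 3 * a)) + (m + 3) / 2 * (X * (m + 5 + 1 * a) * (m + 6 + 1 * a)) * (C0113 (Y * (m + 5 + 2 * a) * (m + 6 + 2 * a)) (Y * (m + 5 + 3 * a) * (m + 6 + 2 * a)) (Y * (m + 5 + 3 * a) * (m + 6 + 3 * a))))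 = ((1620000 + 2241000 * a ^ 1 + 1101150 * a ^ 2 + 254361 * a ^ 3 + 28383 * a ^ 4 + 1242 * a ^ 5 + 2511000 * m ^ 1 + 3087900 * m ^ 1 * a ^ 1 + 1340565 * m ^ 1 * a ^ 2 + 272865 * m ^ 1 * a ^ 3 + 27294 * m ^ 1 * a ^ 4 + 1221 * m ^ 1 * a ^ 5 + 18 * m ^ 1 * a ^ 6 + 1698300 * m ^ 2 + 1817790 * m ^ 2 * a ^ 1 + 677472 * m ^ 2 * a ^ 2 + 116550 * m ^ 2 * a ^ 3 + 9774 * m ^ 2 * a ^ 4 + 381 * m ^ 2 * a ^ 5 + 6 * m ^ 2 * a ^ 6 + 654690 * m ^ 3 + 592605 * m ^ 3 * a ^ 1 + 181806 * m ^ 3 * a ^ 2 + 24705 * m ^ 3 * a ^ 3 + 1524 * m ^ 3 * a ^ 4 + 36 * m ^ 3 * a ^ 5 + 157347 * m ^ 4 + 115542 * m ^ 4 * a ^ 1 + 27315 * m ^ 4 * a ^ 2 + 2595 * m ^ 4 * a ^ 3 + 87 * m ^ 4 * a ^ 4 + 24144 * m ^ 5 + 13473 * m ^ 5 * a ^ 1 + 2178 * m ^ 5 * a ^ 2 + 108 * m ^ 5 * a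 ^ 3 + 2310 * m ^ 6 + 870 * m ^ 6 * a ^ 1 + 72 * m ^ 6 * a ^ 2 + 126 * m ^ 7 + 24 * m ^ 7 * a ^ 1 + 3 * m ^ 8) / 1) * X ^ 2 * Y ^ 1 := by
    unfold C0003 C0013 C0113
    ring
  rw [key]
  positivity

lemma det4_eq (x0 x1 x2 y0 y1 y2 z0 z1 z2 p1 p2 p3 p1' p2' p3' p1'' p2'' p3'' : ℝ)
    (h1' : p1' = x0 + 2 * p1) (h1'' : p1'' = x1 + 2 * p1')
    (h2' : p2' = y0 * p1 + 3 * p2) (h2'' : p2'' = y1 * p1' + 3 * p2')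
    (h3' : p3' = z0 * p2 + 4 * p3) (h3'' : p3'' = z1 * p2' + 4 * p3') :
    (x0 + p1) * (y1 * p1' + 2 * p2') * (z2 * p2'' + 3 * p3'')
      - (x0 + p1) * (z1 * p2' + 3 * p3') * (y2 * p1'' + 2 * p2'')
      - (y0 * p1 + 2 * p2) * (x1 + p1') * (z2 * p2'' + 3 * p3'')
      + (y0 * p1 + 2 * p2) * (z1 * p2' + 3 * p3') * (x2 + p1'')
      + (z0 * p2 + 3 * p3) * (x1 + p1') * (y2 * p1'' + 2 * p2'')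
      - (z0 * p2 + 3 * p3) * (y1 * p1' + 2 * p2') * (x2 + p1'') =
    x0 ^ 3 * y1 ^ 2 * z2 +
    C0001 x0 x1 y0 y1 y2 z1 z2 * p1 +
    C0002 x0 x1 x2 y1 y2 z0 z1 z2 * p2 +
    C0003 x0 x1 x2 y1 y2 * p3 +
    C0011 x0 x1 x2 y0 y1 y2 z1 z2 * p1 * p1 +
    C0012 x0 x1 x2 y0 y1 y2 z0 z1 z2 * p1 * p2 +
    C0013 x0 x1 x2 y0 y1 y2 * p1 * p3 +
    C0022 x0 x1 x2 z0 z1 z2 * p2 * p2 +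
    C0023 x0 x1 x2 * p2 * p3 +
    C0111 y0 y1 y2 z1 z2 * p1 * p1 * p1 +
    C0112 y0 y1 y2 z0 z1 z2 * p1 * p1 * p2 +
    C0113 y0 y1 y2 * p1 * p1 * p3 +
    C0122 z0 z1 z2 * p1 * p2 * p2 +
    12 * p1 * p2 * p3 := by
  subst h1' h1'' h2' h2'' h3' h3''
  unfold C0001 C0002 C0003 C0011 C0012 C0013 C0022 C0023 C0111 C0112 C0113 C0122
  ring

end B0105e
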