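import Pool.Agent.Lib.MP_b0105e_co_h10.Asy
import Pool.Agent.Lib.MP_b0105e_co_h10.Poly4

/-!
The first four columns of `M`, for every order.
-/

namespace B0105e

open Matrix Finset

/-- differences of consecutive rows -/
noncomputable def Dl (a n k : ℕ) : ℝ := al a n k * M a n k + ((k : ℝ) + 1) * M a n (k + 1)

lemma Dl_eq (a n k : ℕ) : Dl a n k = M a (n + 1) (k + 1) - M a n (k + 1) := by
  rw [M_succ]
  unfold Dl
  ring

lemma reduce (a n j : ℕ) : mnr (M a) (fun i : Fin (j + 1) => n + (i : ℕ))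
    (fun i : Fin (j + 1) => (i : ℕ)) =
    mnr (Dl a) (fun i : Fin j => n + (i : ℕ)) (fun i : Fin j => (i : ℕ)) := by
  have hne : ∀ n, M a n 0 ≠ 0 := fun n => by rw [M_zero]; exact one_ne_zero
  rw [nev_det (M a) hne _ (by simp) n, M_zero, one_mul]
  apply mnr_congr
  intro i k
  simp only [Fin.val_succ]
  have h1 : n + 1 + (i : ℕ) = n + (i : ℕ) + 1 := by ring
  rw [h1, Dl_eq]
  simp only [nev, M_zero]
  ring

lemma al_param (a n k : ℕ) : ∃ X : ℝ, 0 < X ∧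
    al a n k = X * ((n : ℝ) + 2 + ((k : ℝ) + 1) * a) * ((n : ℝ) + 3 + ((k : ℝ) + 1) * a) ∧
    al a (n + 1) k = X * ((n : ℝ) + 2 + ((k : ℝ) + 2) * a) * ((n : ℝ) + 3 + ((k : ℝ) + 1) * a) ∧
    al a (n + 2) k = X * ((n : ℝ) + 2 + ((k : ℝ) + 2) * a) * ((n : ℝ) + 3 + ((k : ℝ) + 2) * a) := by
  have h0 := al_pos a n k
  have h1 := al_succ a n k
  have h2 := al_succ a (n + 1) k
  have hA : (0 : ℝ) < (n : ℝ) + 2 + ((k : ℝ) + 1) * a := by positivity
  have hB : (0 : ℝ) < (n : ℝ) + 3 + ((k : ℝ) + 1) * a := by positivity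
  have e1 : al a (n + 1) k = al a n k * ((n : ℝ) + 2 + ((k : ℝ) + 2) * a) /
      ((n : ℝ) + 2 + ((k : ℝ) + 1) * a) := by
    rw [eq_div_iff hA.ne']
    linear_combination h1
  have e2 : al a (n + 2) k = al a (n + 1) k * ((n : ℝ) + 3 + ((k : ℝ) + 2) * a) /
      ((n : ℝ) + 3 + ((k : ℝ) + 1) * a) := by
    rw [eq_div_iff hB.ne']
    push_cast at h2
    linear_combination h2
  refine ⟨al a n k / (((n : ℝ) + 2 + ((k : ℝ) + 1) * a) * ((n : ℝ) + 3 + ((k : ℝ) + 1) * a)),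
    by positivity, ?_, ?_, ?_⟩
  · field_simp
  · rw [e1]
    field_simp
  · rw [e2, e1]
    field_simp

lemma d0 (a n : ℕ) : 0 < mnr (M a) (fun i : Fin 0 => n + (i : ℕ)) (fun i : Fin 0 => (i : ℕ)) := by
  rw [mnr_zero]; exact zero_lt_one

lemma d1 (a n : ℕ) : 0 < mnr (M a) (fun i : Fin 1 => n + (i : ℕ)) (fun i : Fin 1 => (i : ℕ)) := by
  rw [reduce, mnr_zero]; exact zero_lt_one

lemma d2 (a n : ℕ) : 0 < mnr (M a) (fun i : Fin 2 => n + (i : ℕ)) (fun i : Fin 2 => (i : ℕ)) := by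
  rw [reduce]
  have h : mnr (Dl a) (fun i : Fin 1 => n + (i : ℕ)) (fun i : Fin 1 => (i : ℕ)) = Dl a n 0 := by
    simp [mnr]
  rw [h]
  unfold Dl
  have h1 := al_pos a n 0
  have h2 := M_nonneg a n 1
  rw [M_zero]
  positivity

lemma d3 (a n : ℕ) : 0 < mnr (M a) (fun i : Fin 3 => n + (i : ℕ)) (fun i : Fin 3 => (i : ℕ)) := by
  rw [reduce]
  have h : mnr (Dl a) (fun i : Fin 2 => n + (i : ℕ)) (fun i : Fin 2 => (i : ℕ)) =
      Dl a n 0 * Dl a (n + 1) 1 - Dl a n 1 * Dl a (n + 1) 0 := by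
    simp [mnr, Matrix.det_fin_two]
  rw [h]
  have e1 : Dl a n 0 = al a n 0 + M a n 1 := by
    unfold Dl; rw [M_zero]; push_cast; ring
  have e2 : Dl a (n + 1) 0 = al a (n + 1) 0 + M a (n + 1) 1 := by
    unfold Dl; rw [M_zero]; push_cast; ring
  have e3 : Dl a n 1 = al a n 1 * M a n 1 + 2 * M a n 2 := by
    unfold Dl; push_cast; ring
  have e4 : Dl a (n + 1) 1 = al a (n + 1) 1 * M a (n + 1) 1 + 2 * M a (n + 1) 2 := by
    unfold Dl; push_cast; ring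
  have e5 : M a (n + 1) 1 = al a n 0 + 2 * M a n 1 := by
    rw [M_succ, M_zero]; push_cast; ring
  have e6 : M a (n + 1) 2 = al a n 1 * M a n 1 + 3 * M a n 2 := by
    rw [M_succ]; push_cast; ring
  rw [e1, e2, e3, e4, e5, e6]
  have hx := al_le a n 0
  have hx0 := al_pos a n 0
  have hy0 := al_pos a n 1
  have hy1 := al_pos a (n + 1) 1
  have hp := M_nonneg a n 1
  have hq := M_nonneg a n 2
  -- monotonicity of `α(·,1)` in the row
  have hy : al a n 1 ≤ al a (n + 1) 1 := by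
    obtain ⟨Y, hY, h0, h1, _⟩ := al_param a n 1
    rw [h0, h1]
    have ha : (0 : ℝ) ≤ a := Nat.cast_nonneg a
    have hn : (0 : ℝ) ≤ n := Nat.cast_nonneg n
    apply mul_le_mul_of_nonneg_right _ (by positivity)
    apply mul_le_mul_of_nonneg_left _ hY.le
    push_cast
    nlinarith
  push_cast at hx
  set x := al a n 0
  set x' := al a (n + 1) 0
  set y := al a n 1
  set y' := al a (n + 1) 1
  set p := M a n 1
  set q := M a n 2
  have hx' : x' ≤ 2 * x := by linarith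
  have key : (x + p) * (y' * (x + 2 * p) + 2 * (y * p + 3 * q)) -
      (y * p + 2 * q) * (x' + (x + 2 * p)) =
      y' * x ^ 2 + 2 * (y' * p ^ 2) + (3 * y' * x * p - y * x * p) + y * p * (2 * x - x') +
        q * (2 * (2 * x - x') + 2 * p) := by ring
  rw [key]
  have h1 : 0 < y' * x ^ 2 := by positivity
  have h2 : 0 ≤ 2 * (y' * p ^ 2) := by positivity
  have h3 : 0 ≤ 3 * y' * x * p - y * x * p := by
    have : y * (x * p) ≤ y' * (x * p) := mul_le_mul_of_nonneg_right hy (by positivity)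
    have h4 : 0 ≤ y' * (x * p) := by positivity
    nlinarith
  have h4 : 0 ≤ y * p * (2 * x - x') := mul_nonneg (by positivity) (by linarith)
  have h5 : 0 ≤ q * (2 * (2 * x - x') + 2 * p) := mul_nonneg hq (by linarith)
  linarith

lemma d4 (a n : ℕ) : 0 < mnr (M a) (fun i : Fin 4 => n + (i : ℕ)) (fun i : Fin 4 => (i : ℕ)) := by
  rw [reduce]
  have h : mnr (Dl a) (fun i : Fin 3 => n + (i : ℕ)) (fun i : Fin 3 => (i : ℕ)) =
      Dl a n 0 * Dl a (n + 1) 1 * Dl a (n + 2) 2 - Dl a n 0 * Dl a (n + 1) 2 * Dl a (n + 2) 1 -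
      Dl a n 1 * Dl a (n + 1) 0 * Dl a (n + 2) 2 + Dl a n 1 * Dl a (n + 1) 2 * Dl a (n + 2) 0 +
      Dl a n 2 * Dl a (n + 1) 0 * Dl a (n + 2) 1 - Dl a n 2 * Dl a (n + 1) 1 * Dl a (n + 2) 0 := by
    unfold mnr
    rw [Matrix.det_fin_three]
    simp
  rw [h]
  have e0 : ∀ n, Dl a n 0 = al a n 0 + M a n 1 := by
    intro n; unfold Dl; rw [M_zero]; push_cast; ring
  have e1 : ∀ n, Dl a n 1 = al a n 1 * M a n 1 + 2 * M a n 2 := by
    intro n; unfold Dl; push_cast; ring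
  have e2 : ∀ n, Dl a n 2 = al a n 2 * M a n 2 + 3 * M a n 3 := by
    intro n; unfold Dl; push_cast; ring
  have f1 : ∀ n, M a (n + 1) 1 = al a n 0 + 2 * M a n 1 := by
    intro n; rw [M_succ, M_zero]; push_cast; ring
  have f2 : ∀ n, M a (n + 1) 2 = al a n 1 * M a n 1 + 3 * M a n 2 := by
    intro n; rw [M_succ]; push_cast; ring
  have f3 : ∀ n, M a (n + 1) 3 = al a n 2 * M a n 2 + 4 * M a n 3 := by
    intro n; rw [M_succ]; push_cast; ring
  rw [e0, e0, e0, e1, e1, e1, e2, e2, e2]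
  rw [det4_eq (al a n 0) (al a (n + 1) 0) (al a (n + 2) 0) (al a n 1) (al a (n + 1) 1)
    (al a (n + 2) 1) (al a n 2) (al a (n + 1) 2) (al a (n + 2) 2) (M a n 1) (M a n 2) (M a n 3)
    (M a (n + 1) 1) (M a (n + 1) 2) (M a (n + 1) 3) (M a (n + 2) 1) (M a (n + 2) 2)
    (M a (n + 2) 3) (f1 n) (f1 (n + 1)) (f2 n) (f2 (n + 1)) (f3 n) (f3 (n + 1))]
  obtain ⟨X, hX, hx0, hx1, hx2⟩ := al_param a n 0
  obtain ⟨Y, hY, hy0, hy1, hy2⟩ := al_param a n 1
  obtain ⟨Z, hZ, hz0, hz1, hz2⟩ := al_param a n 2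
  have ha : (0 : ℝ) ≤ a := Nat.cast_nonneg a
  have hn : (0 : ℝ) ≤ n := Nat.cast_nonneg n
  have hp := M_nonneg a n 1
  have hq := M_nonneg a n 2
  have hr := M_nonneg a n 3
  have px0 := al_pos a n 0
  have py1 := al_pos a (n + 1) 1
  have pz2 := al_pos a (n + 2) 2
  have hlow := M_aux a n 0
  rw [M_zero] at hlow
  push_cast at hlow
  have q2 : n < 2 → M a n 2 = 0 := fun h => M_low a n 2 h
  have q3 : n < 3 → M a n 3 = 0 := fun h => M_low a n 3 h
  push_cast at hx0 hx1 hx2 hy0 hy1 hy2 hz0 hz1 hz2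
  set x0 := al a n 0
  set x1 := al a (n + 1) 0
  set x2 := al a (n + 2) 0
  set y0 := al a n 1
  set y1 := al a (n + 1) 1
  set y2 := al a (n + 2) 1
  set z0 := al a n 2
  set z1 := al a (n + 1) 2
  set z2 := al a (n + 2) 2
  set p := M a n 1
  set q := M a n 2
  set r := M a n 3
  have c0001 := C0001_nonneg n a X Y Z x0 x1 y0 y1 y2 z1 z2 hn ha hX.le hY.le hZ.le
    (by rw [hx0]; ring) (by rw [hx1]; ring) (by rw [hy0]; ring) (by rw [hy1]; ring)
    (by rw [hy2]; ring) (by rw [hz1]; ring) (by rw [hz2]; ring)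
  have c0002 := C0002_nonneg n a X Y Z x0 x1 x2 y1 y2 z0 z1 z2 hn ha hX.le hY.le hZ.le
    (by rw [hx0]; ring) (by rw [hx1]; ring) (by rw [hx2]; ring) (by rw [hy1]; ring)
    (by rw [hy2]; ring) (by rw [hz0]; ring) (by rw [hz1]; ring) (by rw [hz2]; ring)
  have c0011 := C0011_nonneg n a X Y Z x0 x1 x2 y0 y1 y2 z1 z2 hn ha hX.le hY.le hZ.le
    (by rw [hx0]; ring) (by rw [hx1]; ring) (by rw [hx2]; ring) (by rw [hy0]; ring)
    (by rw [hy1]; ring) (by rw [hy2]; ring) (by rw [hz1]; ring) (by rw [hz2]; ring)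
  have c0012 := C0012_nonneg n a X Y Z x0 x1 x2 y0 y1 y2 z0 z1 z2 hn ha hX.le hY.le hZ.le
    (by rw [hx0]; ring) (by rw [hx1]; ring) (by rw [hx2]; ring) (by rw [hy0]; ring)
    (by rw [hy1]; ring) (by rw [hy2]; ring) (by rw [hz0]; ring) (by rw [hz1]; ring)
    (by rw [hz2]; ring)
  have c0111 := C0111_nonneg n a Y Z y0 y1 y2 z1 z2 hn ha hY.le hZ.le
    (by rw [hy0]; ring) (by rw [hy1]; ring) (by rw [hy2]; ring) (by rw [hz1]; ring)
    (by rw [hz2]; ring)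
  have c0112 := C0112_nonneg n a Y Z y0 y1 y2 z0 z1 z2 hn ha hY.le hZ.le
    (by rw [hy0]; ring) (by rw [hy1]; ring) (by rw [hy2]; ring) (by rw [hz0]; ring)
    (by rw [hz1]; ring) (by rw [hz2]; ring)
  have c0113 := C0113_nonneg n a Y y0 y1 y2 hn ha hY.le
    (by rw [hy0]; ring) (by rw [hy1]; ring) (by rw [hy2]; ring)
  have c0122 := C0122_nonneg n a Z z0 z1 z2 hn ha hZ.le
    (by rw [hz0]; ring) (by rw [hz1]; ring) (by rw [hz2]; ring)
  have hs : 0 ≤ p - (n : ℝ) / 2 * x0 := by linarith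
  -- the terms with `q ^ 2`
  have t22 : 0 ≤ q ^ 2 * (C0022 x0 x1 x2 z0 z1 z2 + p * C0122 z0 z1 z2) := by
    by_cases h2 : n < 2
    · rw [q2 h2]; simp
    · have h2' : (2 : ℝ) ≤ n := by exact_mod_cast not_lt.mp h2
      have k := K22_nonneg (n - 2) a X Z x0 x1 x2 z0 z1 z2 (by linarith) ha hX.le hZ.le
        (by rw [hx0]; ring) (by rw [hx1]; ring) (by rw [hx2]; ring)
        (by rw [hz0]; ring) (by rw [hz1]; ring) (by rw [hz2]; ring)
      apply mul_nonneg (sq_nonneg _)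
      have e : C0022 x0 x1 x2 z0 z1 z2 + p * C0122 z0 z1 z2 =
          (C0022 x0 x1 x2 z0 z1 z2 + ((n : ℝ) - 2 + 2) / 2 * x0 * (C0122 z0 z1 z2)) +
          (p - (n : ℝ) / 2 * x0) * C0122 z0 z1 z2 := by ring
      rw [e]
      exact add_nonneg k (mul_nonneg hs c0122)
  have t23 : 0 ≤ q * r * (C0023 x0 x1 x2 + 12 * p) := by
    by_cases h3 : n < 3
    · rw [q3 h3]; simp
    · have h3' : (3 : ℝ) ≤ n := by exact_mod_cast not_lt.mp h3
      have k := K23_nonneg (n - 3) a X x0 x1 x2 (by linarith) ha hX.le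
        (by rw [hx0]; ring) (by rw [hx1]; ring) (by rw [hx2]; ring)
      apply mul_nonneg (mul_nonneg hq hr)
      have e : C0023 x0 x1 x2 + 12 * p =
          (C0023 x0 x1 x2 + ((n : ℝ) - 3 + 3) / 2 * x0 * 12) +
          (p - (n : ℝ) / 2 * x0) * 12 := by ring
      rw [e]
      exact add_nonneg k (mul_nonneg hs (by norm_num))
  have t3 : 0 ≤ r * (C0003 x0 x1 x2 y1 y2 + p * C0013 x0 x1 x2 y0 y1 y2 +
      p ^ 2 * C0113 y0 y1 y2) := by
    by_cases h3 : n < 3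
    · rw [q3 h3]; simp
    · have h3' : (3 : ℝ) ≤ n := by exact_mod_cast not_lt.mp h3
      have k3 := K03_nonneg (n - 3) a X Y x0 x1 x2 y0 y1 y2 (by linarith) ha hX.le hY.le
        (by rw [hx0]; ring) (by rw [hx1]; ring) (by rw [hx2]; ring)
        (by rw [hy0]; ring) (by rw [hy1]; ring) (by rw [hy2]; ring)
      have k1 := K13_nonneg (n - 3) a X Y x0 x1 x2 y0 y1 y2 (by linarith) ha hX.le hY.le
        (by rw [hx0]; ring) (by rw [hx1]; ring) (by rw [hx2]; ring)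
        (by rw [hy0]; ring) (by rw [hy1]; ring) (by rw [hy2]; ring)
      apply mul_nonneg hr
      have e : C0003 x0 x1 x2 y1 y2 + p * C0013 x0 x1 x2 y0 y1 y2 + p ^ 2 * C0113 y0 y1 y2 =
          (C0003 x0 x1 x2 y1 y2 + ((n : ℝ) - 3 + 3) / 2 * x0 * (C0013 x0 x1 x2 y0 y1 y2 +
            ((n : ℝ) - 3 + 3) / 2 * x0 * (C0113 y0 y1 y2))) +
          (p - (n : ℝ) / 2 * x0) * (C0013 x0 x1 x2 y0 y1 y2 +
            ((n : ℝ) - 3 + 3) / 2 * x0 * (C0113 y0 y1 y2)) +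
          (p - (n : ℝ) / 2 * x0) * (p * C0113 y0 y1 y2) := by ring
      rw [e]
      exact add_nonneg (add_nonneg k3 (mul_nonneg hs k1)) (mul_nonneg hs (mul_nonneg hp c0113))
  have m1 := mul_nonneg c0001 hp
  have m2 := mul_nonneg c0002 hq
  have m3 := mul_nonneg c0011 (mul_nonneg hp hp)
  have m4 := mul_nonneg c0012 (mul_nonneg hp hq)
  have m5 := mul_nonneg c0111 (mul_nonneg hp (mul_nonneg hp hp))
  have m6 := mul_nonneg c0112 (mul_nonneg hp (mul_nonneg hp hq))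
  have m0 : 0 < x0 ^ 3 * y1 ^ 2 * z2 := by positivity
  have tot : 0 < x0 ^ 3 * y1 ^ 2 * z2 + C0001 x0 x1 y0 y1 y2 z1 z2 * p +
      C0002 x0 x1 x2 y1 y2 z0 z1 z2 * q + C0011 x0 x1 x2 y0 y1 y2 z1 z2 * (p * p) +
      C0012 x0 x1 x2 y0 y1 y2 z0 z1 z2 * (p * q) + C0111 y0 y1 y2 z1 z2 * (p * (p * p)) +
      C0112 y0 y1 y2 z0 z1 z2 * (p * (p * q)) +
      q ^ 2 * (C0022 x0 x1 x2 z0 z1 z2 + p * C0122 z0 z1 z2) +
      q * r * (C0023 x0 x1 x2 + 12 * p) +
      r * (C0003 x0 x1 x2 y1 y2 + p * C0013 x0 x1 x2 y0 y1 y2 + p ^ 2 * C0113 y0 y1 y2) := by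
    linarith
  refine lt_of_lt_of_eq tot ?_
  ring

/-- the first four columns of `M` are totally positive for every order -/
theorem small_columns (a : ℕ) : ∀ (p : ℕ) (r c : Fin p → ℕ),
    StrictMono r → StrictMono c → (∀ i, c i < 4) → 0 ≤ mnr (M a) r c := by
  apply tp_crit 4 (M a) (M_low a)
  intro n j hj
  interval_cases j
  · exact d0 a n
  · exact d1 a n
  · exact d2 a n
  · exact d3 a n
  · exact d4 a n

end B0105e
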