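import Pool.Agent.Lib.MP_b0105e_co_h10.Defs
import Pool.Agent.Lib.MP_b0105e_co_h10.Small

/-!
Transfer from `M` to the triangle `S`.
-/

namespace B0105e

open Matrix Finset

lemma S_eq_M (a : ℕ) : ∀ n k : ℕ, (S (a + 1) (n + 1) (k + 1) : ℝ) = M a n k := by
  intro n
  induction n with
  | zero =>
    intro k
    cases k with
    | zero =>
      have h : S (a + 1) 1 1 = 1 := by
        have e : S (a + 1) (0 + 1) (0 + 1) = ((0 + 1) + (a + 1 - 1) * (0 + 1) - 1).choose (a + 1 - 1)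
          * S (a + 1) 0 0 + (0 + 1) * S (a + 1) 0 (0 + 1) := rfl
        have e0 : S (a + 1) 0 0 = 1 := rfl
        have e1 : S (a + 1) 0 (0 + 1) = 0 := rfl
        rw [e0, e1] at e
        have h1 : (0 + 1) + (a + 1 - 1) * (0 + 1) - 1 = a := by omega
        have h2 : a + 1 - 1 = a := by omega
        rw [h1, h2, Nat.choose_self] at e
        simpa using e
      rw [h, M_zero]
      norm_num
    | succ k =>
      have e : S (a + 1) (0 + 1) (k + 1 + 1) = ((0 + 1) + (a + 1 - 1) * (k + 1 + 1) - 1).choose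
        (a + 1 - 1) * S (a + 1) 0 (k + 1) + (k + 1 + 1) * S (a + 1) 0 (k + 1 + 1) := rfl
      have e0 : S (a + 1) 0 (k + 1) = 0 := rfl
      have e1 : S (a + 1) 0 (k + 1 + 1) = 0 := rfl
      rw [e0, e1] at e
      rw [e, M_low a 0 (k + 1) (by omega)]
      norm_num
  | succ n ih =>
    intro k
    cases k with
    | zero =>
      have e : S (a + 1) (n + 1 + 1) (0 + 1) = ((n + 1 + 1) + (a + 1 - 1) * (0 + 1) - 1).choose
        (a + 1 - 1) * S (a + 1) (n + 1) 0 + (0 + 1) * S (a + 1) (n + 1) (0 + 1) := rfl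
      have e0 : S (a + 1) (n + 1) 0 = 0 := rfl
      rw [e0] at e
      rw [e]
      push_cast
      rw [ih 0, M_zero, M_zero]
      norm_num
    | succ k =>
      have e : S (a + 1) (n + 1 + 1) (k + 1 + 1) = ((n + 1 + 1) + (a + 1 - 1) * (k + 1 + 1) - 1).choose
        (a + 1 - 1) * S (a + 1) (n + 1) (k + 1) + (k + 1 + 1) * S (a + 1) (n + 1) (k + 1 + 1) := rfl
      have h1 : (n + 1 + 1) + (a + 1 - 1) * (k + 1 + 1) - 1 = n + 1 + a * (k + 2) := by
        have : a + 1 - 1 = a := by omega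
        rw [this]
        have h3 : a * (k + 1 + 1) = a * (k + 2) := by ring
        rw [h3]
        omega
      have h2 : a + 1 - 1 = a := by omega
      rw [h1, h2] at e
      rw [e, M_succ]
      push_cast
      rw [ih k, ih (k + 1)]
      unfold al
      ring

/-- the triangle with real entries -/
noncomputable def SR (r : ℕ) (n k : ℕ) : ℝ := (S r n k : ℝ)

lemma minor_cast (r : ℕ) {p : ℕ} (i j : Fin p → ℕ) : ((minor r i j : ℤ) : ℝ) = mnr (SR r) i j := by
  unfold minor mnr SR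
  have h := RingHom.map_det (Int.castRingHom ℝ) (Matrix.of fun s t => (S r (i s) (j t) : ℤ))
  have h2 : (Int.castRingHom ℝ) (Matrix.det (Matrix.of fun s t => (S r (i s) (j t) : ℤ))) =
      ((Matrix.det (Matrix.of fun s t => (S r (i s) (j t) : ℤ)) : ℤ) : ℝ) := rfl
  rw [← h2, h]
  have h3 : (Int.castRingHom ℝ).mapMatrix (Matrix.of fun s t => (S r (i s) (j t) : ℤ)) =
      Matrix.of fun s t => (S r (i s) (j t) : ℝ) := by
    ext s t
    simp [RingHom.mapMatrix_apply, Matrix.map_apply, Matrix.of_apply]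
  rw [h3]

lemma minor_nonneg_iff (r : ℕ) {p : ℕ} (i j : Fin p → ℕ) :
    0 ≤ minor r i j ↔ 0 ≤ mnr (SR r) i j := by
  rw [← minor_cast]
  exact Int.cast_nonneg_iff.symm

lemma minor_pos_iff (r : ℕ) {p : ℕ} (i j : Fin p → ℕ) :
    0 < minor r i j ↔ 0 < mnr (SR r) i j := by
  rw [← minor_cast]
  exact Int.cast_pos.symm

/-- nonnegativity of the minors passes from `M` to the triangle -/
lemma transfer (a m : ℕ) (h : ∀ (p : ℕ) (r c : Fin p → ℕ), StrictMono r → StrictMono c →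
    (∀ i, c i < m) → 0 ≤ mnr (M a) r c) (p : ℕ) (i j : Fin p → ℕ) (hi : StrictMono i)
    (hj : StrictMono j) (hm : ∀ s, j s ≤ m) : 0 ≤ minor (a + 1) i j := by
  rw [minor_nonneg_iff]
  refine block (f := SR (a + 1)) (m := m) ?_ ?_ ?_ ?_ p i j hi hj (fun s => by
    have := hm s
    omega)
  · unfold SR
    exact Nat.cast_nonneg _
  · intro k
    have : S (a + 1) 0 (k + 1) = 0 := rfl
    unfold SR
    rw [this]
    norm_num
  · intro n
    have : S (a + 1) (n + 1) 0 = 0 := rfl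
    unfold SR
    rw [this]
    norm_num
  · intro p r c hr hc hm
    have e : mnr (fun n k => SR (a + 1) (n + 1) (k + 1)) r c = mnr (M a) r c := by
      apply mnr_congr
      intro s t
      exact S_eq_M a (r s) (c t)
    rw [e]
    exact h p r c hr hc hm

theorem large_order_S (m : ℕ) : ∃ r₀ : ℕ, ∀ r : ℕ, 1 ≤ r → r₀ ≤ r →
    ∀ (p : ℕ) (i j : Fin p → ℕ), StrictMono i → StrictMono j → (∀ s, j s ≤ m) →
      0 ≤ minor r i j := by
  obtain ⟨a0, h⟩ := large_order m
  refine ⟨a0 + 1, fun r h1 hr p i j hi hj hm => ?_⟩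
  obtain ⟨a, rfl⟩ : ∃ a, r = a + 1 := ⟨r - 1, by omega⟩
  exact transfer a m (h a (by omega)) p i j hi hj hm

theorem small_columns_S (r : ℕ) (hr : 1 ≤ r) (p : ℕ) (i j : Fin p → ℕ) (hi : StrictMono i)
    (hj : StrictMono j) (hm : ∀ s, j s ≤ 4) : 0 ≤ minor r i j := by
  obtain ⟨a, rfl⟩ : ∃ a, r = a + 1 := ⟨r - 1, by omega⟩
  exact transfer a 4 (small_columns a) p i j hi hj hm

theorem deep_rows_S (m : ℕ) : ∃ n₀ : ℕ, ∀ r : ℕ, 1 ≤ r →
    ∀ (p : ℕ) (i j : Fin p → ℕ), StrictMono i → StrictMono j → (∀ s, n₀ ≤ i s) →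
      (∀ s, 1 ≤ j s ∧ j s ≤ m) → 0 < minor r i j := by
  obtain ⟨n1, h⟩ := deep_pos m
  refine ⟨n1 + 1, fun r h1 p i j hi hj hn hm => ?_⟩
  obtain ⟨a, rfl⟩ : ∃ a, r = a + 1 := ⟨r - 1, by omega⟩
  rw [minor_pos_iff]
  have hi1 : ∀ s, 1 ≤ i s := fun s => by have := hn s; omega
  have h2 := h a p (fun s => i s - 1) (fun s => j s - 1) (strictMono_pred hi hi1)
    (strictMono_pred hj (fun s => (hm s).1)) (fun s => by have := hn s; omega)
    (fun s => by have := hm s; omega)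
  refine lt_of_lt_of_eq h2 ?_
  apply mnr_congr
  intro s t
  have a1 : i s - 1 + 1 = i s := by have := hi1 s; omega
  have a2 : j t - 1 + 1 = j t := by have := (hm t).1; omega
  have h3 := S_eq_M a (i s - 1) (j t - 1)
  rw [a1, a2] at h3
  exact h3.symm

end B0105e
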