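import Pool.Agent.Lib.MP_b0105e_co_h10.Lim

/-!
The recurrence, uniform two-sided bounds for the ratio of vertically adjacent entries, and the
two limits (order to infinity with fixed rows; rows to infinity uniformly in the order).
-/

namespace B0105e

open Matrix Finset Filter Topology

/-- the triangle with row `0` and column `0` removed; `a + 1` is the order -/
noncomputable def M (a : ℕ) : ℕ → ℕ → ℝ
  | 0, 0 => 1
  | 0, _ + 1 => 0
  | n + 1, 0 => M a n 0
  | n + 1, k + 1 => ((n + 1 + a * (k + 2)).choose a : ℝ) * M a n k + ((k : ℝ) + 2) * M a n (k + 1)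

noncomputable def al (a n k : ℕ) : ℝ := ((n + 1 + a * (k + 2)).choose a : ℝ)

lemma M_succ (a n k : ℕ) : M a (n + 1) (k + 1) = al a n k * M a n k + ((k : ℝ) + 2) * M a n (k + 1) := rfl

lemma M_zero (a n : ℕ) : M a n 0 = 1 := by
  induction n with
  | zero => rfl
  | succ n ih => rw [← ih]; rfl

lemma al_pos (a n k : ℕ) : 0 < al a n k := by
  unfold al
  have : 0 < (n + 1 + a * (k + 2)).choose a := by
    apply Nat.choose_pos
    nlinarith
  exact_mod_cast this

lemma M_nonneg (a : ℕ) : ∀ n k, 0 ≤ M a n k := by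
  intro n
  induction n with
  | zero =>
    intro k
    cases k with
    | zero => exact zero_le_one
    | succ k => exact le_rfl
  | succ n ih =>
    intro k
    cases k with
    | zero => rw [M_zero]; exact zero_le_one
    | succ k =>
      rw [M_succ]
      have h1 := ih k
      have h2 := ih (k + 1)
      have h3 := (al_pos a n k).le
      positivity

lemma M_low (a : ℕ) : ∀ n k, n < k → M a n k = 0 := by
  intro n
  induction n with
  | zero =>
    intro k hk
    cases k with
    | zero => omega
    | succ k => rfl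
  | succ n ih =>
    intro k hk
    cases k with
    | zero => omega
    | succ k =>
      rw [M_succ, ih k (by omega), ih (k + 1) (by omega)]
      ring

lemma M_pos (a : ℕ) : ∀ n k, k ≤ n → 0 < M a n k := by
  intro n
  induction n with
  | zero =>
    intro k hk
    have : k = 0 := by omega
    subst this
    rw [M_zero]; exact zero_lt_one
  | succ n ih =>
    intro k hk
    cases k with
    | zero => rw [M_zero]; exact zero_lt_one
    | succ k =>
      rw [M_succ]
      have h1 := ih k (by omega)
      have h2 := M_nonneg a n (k + 1)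
      have h3 := al_pos a n k
      positivity

/-- lower bound for the ratio -/
lemma M_lower (a n k : ℕ) : ((k : ℝ) + 1) * M a n k ≤ M a (n + 1) k := by
  cases k with
  | zero => rw [M_zero, M_zero]; norm_num
  | succ k =>
    rw [M_succ]
    have h1 := M_nonneg a n k
    have h3 := (al_pos a n k).le
    have := mul_nonneg h3 h1
    push_cast
    nlinarith

lemma al_succ (a n k : ℕ) : al a (n + 1) k * ((n : ℝ) + 2 + a * (k + 1)) =
    al a n k * ((n : ℝ) + 2 + a * (k + 2)) := by
  unfold al
  have h := Nat.choose_mul_succ_eq (n + 1 + a * (k + 2)) a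
  have h1 : n + 1 + a * (k + 2) + 1 - a = n + 2 + a * (k + 1) := by
    have : a * (k + 2) = a * (k + 1) + a := by ring
    omega
  have h2 : n + 1 + a * (k + 2) + 1 = n + 1 + 1 + a * (k + 2) := by ring
  rw [h1, h2] at h
  have h' : ((n + 1 + a * (k + 2)).choose a : ℝ) * ((n + 1 + 1 + a * (k + 2) : ℕ) : ℝ) =
      ((n + 1 + 1 + a * (k + 2)).choose a : ℝ) * ((n + 2 + a * (k + 1) : ℕ) : ℝ) := by
    exact_mod_cast h
  push_cast at h'
  linarith

lemma al_le (a n k : ℕ) : ((k : ℝ) + 1) * al a (n + 1) k ≤ ((k : ℝ) + 2) * al a n k := by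
  have h := al_succ a n k
  have hp : (0 : ℝ) < (n : ℝ) + 2 + a * (k + 1) := by positivity
  have h1 := (al_pos a n k).le
  have h2 : ((k : ℝ) + 1) * ((n : ℝ) + 2 + a * (k + 2)) ≤
      ((k : ℝ) + 2) * ((n : ℝ) + 2 + a * (k + 1)) := by
    have : (0 : ℝ) ≤ n := Nat.cast_nonneg n
    nlinarith
  by_contra hcon
  push Not at hcon
  have h3 := mul_lt_mul_of_pos_right hcon hp
  have h4 := mul_le_mul_of_nonneg_left h2 h1
  nlinarith

/-- `(n - k) α(n,k) M(n,k) ≤ (k+1)(k+2) M(n,k+1)` -/
lemma M_aux (a : ℕ) : ∀ n k : ℕ, ((n : ℝ) - k) * (al a n k * M a n k) ≤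
    ((k : ℝ) + 1) * (k + 2) * M a n (k + 1) := by
  intro n
  induction n with
  | zero =>
    intro k
    have h1 : M a 0 (k + 1) = 0 := rfl
    rw [h1]
    have h2 := mul_nonneg (al_pos a 0 k).le (M_nonneg a 0 k)
    have h3 : (0 : ℝ) ≤ k := Nat.cast_nonneg k
    have h4 := mul_nonneg h3 h2
    push_cast
    nlinarith
  | succ n ih =>
    intro k
    have hU : ((n : ℝ) + 1 - k) * M a (n + 1) k ≤ ((k : ℝ) + 1) * (n + 1) * M a n k := by
      cases k with
      | zero => rw [M_zero, M_zero]; simp
      | succ k =>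
        rw [M_succ]
        have := ih k
        push_cast
        nlinarith
    have hpos : 0 ≤ ((n : ℝ) + 1 - k) * M a (n + 1) k := by
      by_cases h : k ≤ n + 1
      · have h1 : (k : ℝ) ≤ (n : ℝ) + 1 := by exact_mod_cast h
        exact mul_nonneg (by linarith) (M_nonneg _ _ _)
      · rw [M_low a (n + 1) k (by omega)]
        simp
    have h1 := al_le a n k
    have h2 := mul_le_mul_of_nonneg_right h1 hpos
    have hal := (al_pos a n k).le
    have hk : (0 : ℝ) ≤ (k : ℝ) + 2 := by positivity
    have h3 := mul_le_mul_of_nonneg_left hU (mul_nonneg hk hal)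
    have h4 := ih k
    have h5 := mul_le_mul_of_nonneg_left h4 (mul_nonneg hk (by positivity : (0 : ℝ) ≤ (k : ℝ) + 1))
    rw [M_succ a n k]
    have hk1 : (0 : ℝ) < (k : ℝ) + 1 := by positivity
    have key : ((k : ℝ) + 1) * (((n + 1 : ℕ) : ℝ) - k) * (al a (n + 1) k * M a (n + 1) k) ≤
        ((k : ℝ) + 1) * (((k : ℝ) + 1) * (k + 2) *
          (al a n k * M a n k + ((k : ℝ) + 2) * M a n (k + 1))) := by
      push_cast
      nlinarith
    rw [mul_assoc] at key
    exact le_of_mul_le_mul_left key hk1

/-- upper bound for the ratio -/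
lemma M_upper (a n k : ℕ) : ((n : ℝ) + 1 - k) * M a (n + 1) k ≤
    ((k : ℝ) + 1) * (n + 1) * M a n k := by
  cases k with
  | zero => rw [M_zero, M_zero]; simp
  | succ k =>
    rw [M_succ]
    have := M_aux a n k
    push_cast
    nlinarith

end B0105e
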