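import Mathlib

/-!
Total positivity by Neville elimination: row operations with nonnegative coefficients,
a criterion for lower triangular matrices, the Pascal cascade and Fekete's lemma.
-/

namespace B0105e

open Matrix Finset

/-- the minor of `f` on rows `r` and columns `c` -/
noncomputable def mnr {ι : Type*} {p : ℕ} (f : ℕ → ι → ℝ) (r : Fin p → ℕ) (c : Fin p → ι) : ℝ :=
  Matrix.det (Matrix.of fun i j => f (r i) (c j))

lemma mnr_zero {ι : Type*} (f : ℕ → ι → ℝ) (r : Fin 0 → ℕ) (c : Fin 0 → ι) :
    mnr f r c = 1 := by
  simp [mnr]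

lemma mnr_congr {ι κ : Type*} {p : ℕ} {f : ℕ → ι → ℝ} {g : ℕ → κ → ℝ} {r s : Fin p → ℕ}
    {c : Fin p → ι} {d : Fin p → κ}
    (h : ∀ i j, f (r i) (c j) = g (s i) (d j)) : mnr f r c = mnr g s d := by
  unfold mnr
  have : (Matrix.of fun i j => f (r i) (c j)) = (Matrix.of fun i j => g (s i) (d j)) := by
    ext i j
    exact h i j
  rw [this]

lemma mnr_nonneg_of_mono {ι : Type*} {p : ℕ} {f : ℕ → ι → ℝ} {c : Fin p → ι} {N : ℕ}
    (h : ∀ r : Fin p → ℕ, StrictMono r → (∀ i, r i ≤ N) → 0 ≤ mnr f r c)
    (r : Fin p → ℕ) (hr : Monotone r) (hN : ∀ i, r i ≤ N) : 0 ≤ mnr f r c := by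
  by_cases hi : Function.Injective r
  · exact h r (hr.strictMono_of_injective hi) hN
  · have : ∃ i j, r i = r j ∧ i ≠ j := by
      by_contra hcon
      apply hi
      intro i j hij
      by_contra hne
      exact hcon ⟨i, j, hij, hne⟩
    obtain ⟨i, j, hij, hne⟩ := this
    have h0 : mnr f r c = 0 := by
      unfold mnr
      apply Matrix.det_zero_of_row_eq hne
      ext k
      simp [Matrix.of_apply, hij]
    rw [h0]

lemma mnr_step {ι : Type*} {p : ℕ} {H H' : ℕ → ι → ℝ} {c : Fin p → ι} {N t : ℕ} {d : ℝ}
    (hd : 0 ≤ d) (hne : ∀ n, n ≠ t + 1 → ∀ k, H' n k = H n k)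
    (heq : ∀ k, H' (t + 1) k = H (t + 1) k + d * H t k)
    (h : ∀ r : Fin p → ℕ, StrictMono r → (∀ i, r i ≤ N) → 0 ≤ mnr H r c)
    (r : Fin p → ℕ) (hr : StrictMono r) (hN : ∀ i, r i ≤ N) :
    mnr H r c ≤ mnr H' r c := by
  classical
  by_cases hq : ∃ q, r q = t + 1
  · obtain ⟨q, hq⟩ := hq
    have key : mnr H' r c = mnr H r c + d * mnr H (Function.update r q t) c := by
      unfold mnr
      set M : Matrix (Fin p) (Fin p) ℝ := Matrix.of fun i j => H (r i) (c j) with hM
      have e1 : (Matrix.of fun i j => H' (r i) (c j)) =
          M.updateRow q ((fun j => H (t + 1) (c j)) + d • (fun j => H t (c j))) := by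
        ext i j
        by_cases hi : i = q
        · subst hi
          simp [Matrix.updateRow_self, hq, heq]
        · have hrne : r i ≠ t + 1 := by
            intro hh
            apply hi
            apply hr.injective
            rw [hh, hq]
          simp [Matrix.updateRow_ne hi, hM, hne _ hrne]
      have e2 : M.updateRow q (fun j => H (t + 1) (c j)) = M := by
        ext i j
        by_cases hi : i = q
        · subst hi
          simp [Matrix.updateRow_self, hM, hq]
        · simp [Matrix.updateRow_ne hi]
      have e3 : (Matrix.of fun i j => H (Function.update r q t i) (c j)) =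
          M.updateRow q (fun j => H t (c j)) := by
        ext i j
        by_cases hi : i = q
        · subst hi
          simp [Matrix.updateRow_self]
        · simp [Matrix.updateRow_ne hi, hM, Function.update_of_ne hi]
      rw [e1, Matrix.det_updateRow_add, Matrix.det_updateRow_smul, e2, e3]
    have hmono : Monotone (Function.update r q t) := by
      intro i j hij
      by_cases hi : i = q
      · subst hi
        by_cases hj : j = i
        · subst hj; exact le_rfl
        · have hlt : i < j := lt_of_le_of_ne hij (fun h => hj h.symm)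
          have := hr hlt
          simp only [Function.update_self, Function.update_of_ne hj]
          omega
      · by_cases hj : j = q
        · subst hj
          have hlt : i < j := lt_of_le_of_ne hij hi
          have := hr hlt
          simp only [Function.update_self, Function.update_of_ne hi]
          omega
        · simp only [Function.update_of_ne hi, Function.update_of_ne hj]
          exact hr.monotone hij
    have hN' : ∀ i, Function.update r q t i ≤ N := by
      intro i
      by_cases hi : i = q
      · subst hi
        have := hN i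
        simp only [Function.update_self]
        omega
      · simp only [Function.update_of_ne hi]
        exact hN i
    have h1 := mnr_nonneg_of_mono h _ hmono hN'
    rw [key]
    have := mul_nonneg hd h1
    linarith
  · apply le_of_eq
    apply mnr_congr
    intro i j
    rw [hne]
    intro hh
    exact hq ⟨i, hh⟩

/-- cumulative row operations with nonnegative coefficients do not decrease the minors -/
lemma mnr_rowop {ι : Type*} {p : ℕ} {f g : ℕ → ι → ℝ} {c : Fin p → ι} {N : ℕ} (d : ℕ → ℝ)
    (hd : ∀ n, 0 ≤ d n) (h0 : ∀ k, f 0 k = g 0 k)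
    (hs : ∀ n k, f (n + 1) k = g (n + 1) k + d n * f n k)
    (h : ∀ r : Fin p → ℕ, StrictMono r → (∀ i, r i ≤ N) → 0 ≤ mnr g r c)
    (r : Fin p → ℕ) (hr : StrictMono r) (hN : ∀ i, r i ≤ N) :
    mnr g r c ≤ mnr f r c := by
  have main : ∀ t : ℕ, ∀ r : Fin p → ℕ, StrictMono r → (∀ i, r i ≤ N) →
      mnr g r c ≤ mnr (fun n k => if n ≤ t then f n k else g n k) r c := by
    intro t
    induction t with
    | zero =>
      intro r hr hN
      apply le_of_eq
      apply mnr_congr
      intro i j
      by_cases hi : r i ≤ 0
      · have : r i = 0 := by omega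
        simp [this, h0]
      · simp only [hi, if_false]
    | succ t ih =>
      intro r hr hN
      refine le_trans (ih r hr hN) ?_
      apply mnr_step (hd t) (t := t) (N := N) _ _ _ r hr hN
      · intro n hn k
        by_cases h1 : n ≤ t
        · have h2 : n ≤ t + 1 := by omega
          simp only [h1, h2, if_true]
        · have h2 : ¬ n ≤ t + 1 := by omega
          simp only [h1, h2, if_false]
      · intro k
        have h1 : ¬ t + 1 ≤ t := by omega
        simp only [h1, le_refl, if_true, if_false]
        exact hs t k
      · intro r hr hN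
        exact le_trans (h r hr hN) (ih r hr hN)
  have := main N r hr hN
  refine le_trans this (le_of_eq ?_)
  apply mnr_congr
  intro i j
  simp only [hN i, if_true]

lemma exists_bound {p : ℕ} (r : Fin p → ℕ) : ∃ N, ∀ i, r i ≤ N :=
  ⟨∑ i, r i, fun i => Finset.single_le_sum (f := r) (fun _ _ => Nat.zero_le _) (Finset.mem_univ i)⟩

lemma mnr_rowop' {ι : Type*} {p : ℕ} {f g : ℕ → ι → ℝ} {c : Fin p → ι} (d : ℕ → ℝ)
    (hd : ∀ n, 0 ≤ d n) (h0 : ∀ k, f 0 k = g 0 k)
    (hs : ∀ n k, f (n + 1) k = g (n + 1) k + d n * f n k)
    (h : ∀ r : Fin p → ℕ, StrictMono r → 0 ≤ mnr g r c)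
    (r : Fin p → ℕ) (hr : StrictMono r) :
    mnr g r c ≤ mnr f r c := by
  obtain ⟨N, hN⟩ := exists_bound r
  exact mnr_rowop d hd h0 hs (fun r hr _ => h r hr) r hr hN

/-- expansion along a first column that vanishes below its top entry -/
lemma mnr_col_zero {p : ℕ} {f : ℕ → ℕ → ℝ} {r c : Fin (p + 1) → ℕ}
    (h : ∀ i : Fin p, f (r i.succ) (c 0) = 0) :
    mnr f r c = f (r 0) (c 0) * mnr f (fun i => r i.succ) (fun i => c i.succ) := by
  unfold mnr
  rw [Matrix.det_succ_column_zero, Fin.sum_univ_succ]
  have : ∀ i : Fin p, (-1 : ℝ) ^ (i.succ : ℕ) *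
      (Matrix.of fun i j => f (r i) (c j)) i.succ 0 *
      Matrix.det ((Matrix.of fun i j => f (r i) (c j)).submatrix i.succ.succAbove Fin.succ) = 0 := by
    intro i
    simp [Matrix.of_apply, h i]
  rw [Finset.sum_eq_zero (fun i _ => this i), add_zero]
  simp only [Fin.val_zero, pow_zero, one_mul, Matrix.of_apply, Fin.succAbove_zero]
  rfl

lemma mnr_col_eq_zero {p : ℕ} {f : ℕ → ℕ → ℝ} {r c : Fin p → ℕ} (j : Fin p)
    (h : ∀ i : Fin p, f (r i) (c j) = 0) : mnr f r c = 0 := by
  unfold mnr
  apply Matrix.det_eq_zero_of_column_eq_zero j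
  intro i
  simp [Matrix.of_apply, h i]

lemma mnr_row_eq_zero {p : ℕ} {f : ℕ → ℕ → ℝ} {r c : Fin p → ℕ} (i : Fin p)
    (h : ∀ j : Fin p, f (r i) (c j) = 0) : mnr f r c = 0 := by
  unfold mnr
  apply Matrix.det_eq_zero_of_row_eq_zero i
  intro j
  simp [Matrix.of_apply, h j]

/-- a strictly monotone map into the naturals with positive first value, shifted down -/
lemma strictMono_pred {p : ℕ} {r : Fin p → ℕ} (hr : StrictMono r) (h0 : ∀ i, 1 ≤ r i) :
    StrictMono (fun i => r i - 1) := by
  intro i j hij
  have h1 := hr hij
  have h2 := h0 i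
  have h3 := h0 j
  simp only
  omega

lemma one_le_of_ne {p : ℕ} {r : Fin (p + 1) → ℕ} (hr : StrictMono r) (h0 : r 0 ≠ 0) :
    ∀ i, 1 ≤ r i := by
  intro i
  have : r 0 ≤ r i := hr.monotone (Fin.zero_le i)
  omega

lemma one_le_succ {p : ℕ} {r : Fin (p + 1) → ℕ} (hr : StrictMono r) :
    ∀ i : Fin p, 1 ≤ r i.succ := by
  intro i
  have : r 0 < r i.succ := hr (Fin.succ_pos i)
  omega

/-- the block lemma: first row and first column are zero apart from the corner -/
lemma block {f : ℕ → ℕ → ℝ} {m : ℕ} (h00 : 0 ≤ f 0 0) (hrow : ∀ k, f 0 (k + 1) = 0)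
    (hcol : ∀ n, f (n + 1) 0 = 0)
    (h : ∀ (p : ℕ) (r c : Fin p → ℕ), StrictMono r → StrictMono c → (∀ i, c i < m) →
      0 ≤ mnr (fun n k => f (n + 1) (k + 1)) r c)
    (p : ℕ) (r c : Fin p → ℕ) (hr : StrictMono r) (hc : StrictMono c) (hm : ∀ i, c i < m + 1) :
    0 ≤ mnr f r c := by
  -- the shifted minor
  have shift : ∀ (q : ℕ) (r c : Fin q → ℕ), StrictMono r → StrictMono c → (∀ i, 1 ≤ r i) →
      (∀ i, 1 ≤ c i) → (∀ i, c i < m + 1) → 0 ≤ mnr f r c := by
    intro q r c hr hc h1 h2 hm
    have hh := h q (fun i => r i - 1) (fun i => c i - 1) (strictMono_pred hr h1)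
      (strictMono_pred hc h2) (fun i => by have := hm i; have := h2 i; omega)
    have e : mnr (fun n k => f (n + 1) (k + 1)) (fun i => r i - 1) (fun i => c i - 1)
        = mnr f r c := by
      unfold mnr
      have : (Matrix.of fun i j => (fun n k => f (n + 1) (k + 1)) ((fun i => r i - 1) i)
          ((fun i => c i - 1) j)) = (Matrix.of fun i j => f (r i) (c j)) := by
        ext i j
        have a1 : r i - 1 + 1 = r i := by have := h1 i; omega
        have a2 : c j - 1 + 1 = c j := by have := h2 j; omega
        simp only [Matrix.of_apply, a1, a2]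
      rw [this]
    rw [e] at hh
    exact hh
  cases p with
  | zero => rw [mnr_zero]; exact zero_le_one
  | succ p =>
    by_cases hr0 : r 0 = 0
    · by_cases hc0 : c 0 = 0
      · rw [mnr_col_zero]
        · apply mul_nonneg
          · rw [hr0, hc0]; exact h00
          · apply shift
            · intro i j hij; exact hr (Fin.succ_lt_succ_iff.mpr hij)
            · intro i j hij; exact hc (Fin.succ_lt_succ_iff.mpr hij)
            · exact one_le_succ hr
            · exact one_le_succ hc
            · intro i; exact hm _
        · intro i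
          have h1 := one_le_succ hr i
          obtain ⟨n, hn⟩ : ∃ n, r i.succ = n + 1 := ⟨r i.succ - 1, by omega⟩
          rw [hn, hc0]
          exact hcol n
      · rw [mnr_row_eq_zero 0]
        intro j
        have h1 := one_le_of_ne hc hc0 j
        obtain ⟨n, hn⟩ : ∃ n, c j = n + 1 := ⟨c j - 1, by omega⟩
        rw [hr0, hn]
        exact hrow n
    · by_cases hc0 : c 0 = 0
      · rw [mnr_col_eq_zero 0]
        intro i
        have h1 := one_le_of_ne hr hr0 i
        obtain ⟨n, hn⟩ : ∃ n, r i = n + 1 := ⟨r i - 1, by omega⟩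
        rw [hn, hc0]
        exact hcol n
      · exact shift _ r c hr hc (one_le_of_ne hr hr0) (one_le_of_ne hc hc0) hm

/-- one step of Neville elimination of the first column -/
noncomputable def nev (f : ℕ → ℕ → ℝ) : ℕ → ℕ → ℝ
  | 0, k => f 0 k
  | n + 1, k => f (n + 1) k - f (n + 1) 0 / f n 0 * f n k

lemma nev_col (f : ℕ → ℕ → ℝ) (hf : ∀ n, f n 0 ≠ 0) (n : ℕ) : nev f (n + 1) 0 = 0 := by
  simp only [nev]
  have := hf n
  field_simp
  ring

/-- consecutive minors before and after elimination -/
lemma nev_det {p : ℕ} (f : ℕ → ℕ → ℝ) (hf : ∀ n, f n 0 ≠ 0) (c : Fin (p + 1) → ℕ)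
    (hc : c 0 = 0) (n : ℕ) :
    mnr f (fun i => n + i) c = f n 0 * mnr (nev f) (fun i => n + 1 + i) (fun j => c j.succ) := by
  have e1 : mnr f (fun i => n + i) c =
      Matrix.det (Matrix.of fun (i j : Fin (p + 1)) =>
        if (i : ℕ) = 0 then f n (c j) else nev f (n + i) (c j)) := by
    unfold mnr
    apply Matrix.det_eq_of_forall_row_eq_smul_add_pred
      (fun i => f (n + i + 1) 0 / f (n + i) 0)
    · intro j
      simp
    · intro i j
      simp only [Matrix.of_apply, Fin.val_succ, Fin.val_castSucc]
      have h1 : ¬ ((i : ℕ) + 1 = 0) := by omega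
      simp only [h1, if_false]
      have h2 : n + ((i : ℕ) + 1) = (n + i) + 1 := by ring
      rw [h2]
      simp only [nev]
      ring
  rw [e1, Matrix.det_succ_column_zero, Fin.sum_univ_succ]
  have : ∀ i : Fin p, (-1 : ℝ) ^ (i.succ : ℕ) *
      (Matrix.of fun (i j : Fin (p + 1)) =>
        if (i : ℕ) = 0 then f n (c j) else nev f (n + i) (c j)) i.succ 0 *
      Matrix.det ((Matrix.of fun (i j : Fin (p + 1)) =>
        if (i : ℕ) = 0 then f n (c j) else nev f (n + i) (c j)).submatrix
          i.succ.succAbove Fin.succ) = 0 := by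
    intro i
    have h2 : n + ((i : ℕ) + 1) = (n + i) + 1 := by ring
    have h3 : nev f (n + ((i : ℕ) + 1)) 0 = 0 := by
      rw [h2]; exact nev_col f hf _
    simp [Matrix.of_apply, hc, h3]
  rw [Finset.sum_eq_zero (fun i _ => this i), add_zero]
  simp only [Fin.val_zero, pow_zero, one_mul, Matrix.of_apply, Fin.succAbove_zero, if_true, hc]
  congr 1
  unfold mnr
  have e2 : ((Matrix.of fun (i j : Fin (p + 1)) =>
        if (i : ℕ) = 0 then f n (c j) else nev f (n + i) (c j)).submatrix Fin.succ Fin.succ) =
      (Matrix.of fun (i j : Fin p) => nev f ((fun i : Fin p => n + 1 + (i : ℕ)) i)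
        ((fun j : Fin p => c j.succ) j)) := by
    ext i j
    have h1 : ¬ ((i : ℕ) + 1 = 0) := by omega
    simp only [Matrix.submatrix_apply, Matrix.of_apply, Fin.val_succ, h1, if_false]
    have h2 : n + ((i : ℕ) + 1) = n + 1 + i := by ring
    rw [h2]
  rw [e2]

/-- the shifted Neville matrix -/
noncomputable def nevs (f : ℕ → ℕ → ℝ) : ℕ → ℕ → ℝ := fun n k => nev f (n + 1) (k + 1)

/-- criterion for lower triangular matrices: positive consecutive minors in the first columns
imply that all minors in the first `m` columns are nonnegative -/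
theorem tp_crit (m : ℕ) : ∀ f : ℕ → ℕ → ℝ, (∀ n k, n < k → f n k = 0) →
    (∀ n j, j ≤ m → 0 < mnr f (fun i : Fin j => n + i) (fun i : Fin j => (i : ℕ))) →
    ∀ (p : ℕ) (r c : Fin p → ℕ), StrictMono r → StrictMono c → (∀ i, c i < m) →
      0 ≤ mnr f r c := by
  induction m with
  | zero =>
    intro f _ _ p r c _ _ hm
    cases p with
    | zero => rw [mnr_zero]; exact zero_le_one
    | succ p => exact absurd (hm 0) (by omega)
  | succ m ih =>
    intro f hlow hD p r c hr hc hm
    have hpos : ∀ n, 0 < f n 0 := by
      intro n
      have := hD n 1 (by omega)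
      simpa [mnr] using this
    have hne : ∀ n, f n 0 ≠ 0 := fun n => (hpos n).ne'
    -- the eliminated matrix has nonnegative minors
    have hg : ∀ (p : ℕ) (r c : Fin p → ℕ), StrictMono r → StrictMono c → (∀ i, c i < m + 1) →
        0 ≤ mnr (nev f) r c := by
      apply block
      · exact (hpos 0).le
      · intro k
        simp only [nev]
        exact hlow 0 (k + 1) (by omega)
      · exact nev_col f hne
      · apply ih
        · intro n k hnk
          simp only [nev]
          rw [hlow (n + 1) (k + 1) (by omega), hlow n (k + 1) (by omega)]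
          ring
        · intro n j hj
          have h1 := hD n (j + 1) (by omega)
          rw [nev_det f hne _ (by simp) n] at h1
          have h2 := pos_of_mul_pos_right h1 (hpos n).le
          refine lt_of_lt_of_eq h2 ?_
          unfold mnr
          have h3 : (Matrix.of fun (i k : Fin j) => nev f ((fun i : Fin j => n + 1 + (i : ℕ)) i)
              ((fun k : Fin j => ((k.succ : Fin (j + 1)) : ℕ)) k)) =
              (Matrix.of fun (i k : Fin j) => (fun n k => nev f (n + 1) (k + 1))
              ((fun i : Fin j => n + (i : ℕ)) i) ((fun i : Fin j => (i : ℕ)) k)) := by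
            ext i k
            simp only [Matrix.of_apply, Fin.val_succ]
            have h4 : n + 1 + (i : ℕ) = n + (i : ℕ) + 1 := by ring
            rw [h4]
          rw [h3]
    refine le_trans (hg p r c hr hc hm) ?_
    apply mnr_rowop' (fun n => f (n + 1) 0 / f n 0)
    · intro n; exact (div_pos (hpos _) (hpos _)).le
    · intro k; rfl
    · intro n k
      simp only [nev]
      ring
    · intro r hr
      exact hg p r c hr hc hm
    · exact hr

/-- iterated sums: `W Y n t k = ∑ l, C(n,l) Y (t+l) k` -/
noncomputable def W (Y : ℕ → ℕ → ℝ) : ℕ → ℕ → ℕ → ℝ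
  | 0, t, k => Y t k
  | n + 1, t, k => W Y n t k + W Y n (t + 1) k

/-- multiplication by the Pascal matrix does not decrease the minors -/
theorem cascade {p : ℕ} (Y : ℕ → ℕ → ℝ) (c : Fin p → ℕ)
    (h : ∀ r : Fin p → ℕ, StrictMono r → 0 ≤ mnr Y r c) (r : Fin p → ℕ) (hr : StrictMono r) :
    mnr Y r c ≤ mnr (fun n k => W Y n 0 k) r c := by
  obtain ⟨N, hN⟩ := exists_bound r
  have main : ∀ s : ℕ, s ≤ N → ∀ r : Fin p → ℕ, StrictMono r → (∀ i, r i ≤ N) →
      mnr Y r c ≤ mnr (fun n k => if n < N - s then Y n k else W Y (n - (N - s)) (N - s) k) r c := by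
    intro s
    induction s with
    | zero =>
      intro _ r hr hN
      apply le_of_eq
      apply mnr_congr
      intro i j
      by_cases h1 : r i < N
      · simp only [Nat.sub_zero, h1, if_true]
      · have h2 : r i = N := le_antisymm (hN i) (not_lt.mp h1)
        simp [h2, W]
    | succ s ih =>
      intro hs r hr hN
      have ih' := ih (by omega)
      obtain ⟨t, ht⟩ : ∃ t, N - (s + 1) = t := ⟨_, rfl⟩
      have ht1 : N - s = t + 1 := by omega
      rw [ht1] at ih'
      rw [ht]
      refine le_trans (ih' r hr hN) ?_
      refine mnr_rowop (N := N) (fun n => if n < t then 0 else 1) ?_ ?_ ?_ ?_ r hr hN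
      · intro n
        by_cases h1 : n < t
        · simp [h1]
        · simp [h1]
      · intro k
        by_cases h1 : t = 0
        · subst h1
          simp [W]
        · have h2 : 0 < t := Nat.pos_of_ne_zero h1
          simp [h2]
      · intro n k
        by_cases h1 : n + 1 < t
        · have h2 : n + 1 < t + 1 := by omega
          have h3 : n < t := by omega
          simp [h1, h3]
        · by_cases h2 : n + 1 = t
          · have h3 : n < t := by omega
            subst h2
            simp [W]
          · have h3 : ¬ n < t := by omega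
            have h4 : ¬ n + 1 < t + 1 := by omega
            have h5 : n + 1 - t = (n - t) + 1 := by omega
            have h6 : n + 1 - (t + 1) = n - t := by omega
            simp only [h1, h3, h4, if_false, h5, h6, W]
            ring
      · intro r hr hN
        exact le_trans (h r hr) (ih' r hr hN)
  have h1 := main N le_rfl r hr hN
  refine le_trans h1 (le_of_eq ?_)
  apply mnr_congr
  intro i j
  simp

/-- row and column scaling -/
lemma mnr_scale {p : ℕ} (f : ℕ → ℕ → ℝ) (u v : ℕ → ℝ) (r c : Fin p → ℕ) :
    mnr (fun n k => u n * (v k * f n k)) r c = (∏ i, u (r i)) * ((∏ j, v (c j)) * mnr f r c) := by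
  unfold mnr
  rw [← Matrix.det_mul_row, ← Matrix.det_mul_column]
  rfl

lemma prod_pos_fin {p : ℕ} (u : ℕ → ℝ) (hu : ∀ n, 0 < u n) (r : Fin p → ℕ) :
    0 < ∏ i, u (r i) := Finset.prod_pos (fun _ _ => hu _)

/-- column shift of a minor -/
lemma mnr_colshift {p : ℕ} (f : ℕ → ℕ → ℝ) (r c : Fin p → ℕ) (hc : ∀ i, 1 ≤ c i) :
    mnr f r c = mnr (fun n k => f n (k + 1)) r (fun i => c i - 1) := by
  apply mnr_congr
  intro i j
  have := hc j
  have h1 : c j - 1 + 1 = c j := by omega
  simp only [h1]

/-- row operations on consecutive rows, keeping the first -/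
lemma nev_det0 {p : ℕ} (f : ℕ → ℕ → ℝ) (c : Fin p → ℕ) :
    mnr f (fun i => 0 + (i : ℕ)) c = mnr (nev f) (fun i => 0 + (i : ℕ)) c := by
  cases p with
  | zero => rw [mnr_zero, mnr_zero]
  | succ p =>
    unfold mnr
    apply Matrix.det_eq_of_forall_row_eq_smul_add_pred
      (fun i => f ((i : ℕ) + 1) 0 / f (i : ℕ) 0)
    · intro j
      simp [nev]
    · intro i j
      simp only [Matrix.of_apply, Fin.val_succ, Fin.val_castSucc, zero_add, nev]
      ring

/-- Fekete's lemma: if all minors with consecutive rows are positive, all minors are positive -/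
theorem fekete (m : ℕ) : ∀ f : ℕ → ℕ → ℝ,
    (∀ (n p : ℕ) (c : Fin p → ℕ), StrictMono c → (∀ i, c i < m) →
      0 < mnr f (fun i : Fin p => n + (i : ℕ)) c) →
    ∀ (p : ℕ) (r c : Fin p → ℕ), StrictMono r → StrictMono c → (∀ i, c i < m) →
      0 < mnr f r c := by
  induction m with
  | zero =>
    intro f _ p r c _ _ hm
    cases p with
    | zero => rw [mnr_zero]; exact zero_lt_one
    | succ p => exact absurd (hm 0) (by omega)
  | succ m ih =>
    -- the case of a first row with index zero
    have claim : ∀ f : ℕ → ℕ → ℝ,
        (∀ (n p : ℕ) (c : Fin p → ℕ), StrictMono c → (∀ i, c i < m + 1) →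
          0 < mnr f (fun i : Fin p => n + (i : ℕ)) c) →
        ∀ (p : ℕ) (r c : Fin (p + 1) → ℕ), StrictMono r → StrictMono c → (∀ i, c i < m + 1) →
          r 0 = 0 → 0 < mnr f r c := by
      intro f hf p r c hr hc hm hr0
      have hpos : ∀ n, 0 < f n 0 := by
        intro n
        have := hf n 1 (fun _ => 0) (fun i j hij => absurd hij (by omega)) (fun _ => by omega)
        simpa [mnr] using this
      have hne : ∀ n, f n 0 ≠ 0 := fun n => (hpos n).ne'
      have hA : ∀ (p : ℕ) (r c : Fin p → ℕ), StrictMono r → StrictMono c → (∀ i, c i < m) →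
          0 < mnr (fun n k => nev f n (k + 1)) r c := by
        apply ih
        intro n p c hc hm
        have hc1 : StrictMono (fun i => c i + 1) := fun i j hij => by
          have := hc hij
          simp only
          omega
        have e1 : mnr (fun n k => nev f n (k + 1)) (fun i : Fin p => n + (i : ℕ)) c =
            mnr (nev f) (fun i : Fin p => n + (i : ℕ)) (fun i => c i + 1) := by
          apply mnr_congr
          intro i j
          rfl
        rw [e1]
        cases n with
        | zero =>
          rw [← nev_det0]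
          exact hf 0 p _ hc1 (fun i => by have := hm i; omega)
        | succ n =>
          have h2 := nev_det f hne (Fin.cons 0 (fun i => c i + 1) : Fin (p + 1) → ℕ) (by simp) n
          have h3 := hf n (p + 1) (Fin.cons 0 (fun i => c i + 1) : Fin (p + 1) → ℕ) (by
            intro i j hij
            induction i using Fin.cases with
            | zero =>
              induction j using Fin.cases with
              | zero => exact absurd hij (lt_irrefl _)
              | succ j => simp
            | succ i =>
              induction j using Fin.cases with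
              | zero => exact absurd hij (by simp)
              | succ j =>
                simp only [Fin.cons_succ]
                have := hc (Fin.succ_lt_succ_iff.mp hij)
                omega) (by
            intro i
            induction i using Fin.cases with
            | zero => simp
            | succ i =>
              simp only [Fin.cons_succ]
              have := hm i
              omega)
          rw [h2] at h3
          have h4 := pos_of_mul_pos_right h3 (hpos n).le
          simpa only [Fin.cons_succ] using h4
      have hB : ∀ (p : ℕ) (r c : Fin p → ℕ), StrictMono r → StrictMono c → (∀ i, c i < m + 1) →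
          (∀ i, 1 ≤ c i) → 0 < mnr (nev f) r c := by
        intro p r c hr hc hm h1
        rw [mnr_colshift _ r c h1]
        exact hA p r _ hr (strictMono_pred hc h1) (fun i => by have := hm i; have := h1 i; omega)
      have hC : ∀ (p : ℕ) (r c : Fin (p + 1) → ℕ), StrictMono r → StrictMono c →
          (∀ i, c i < m + 1) → r 0 = 0 → 0 < mnr (nev f) r c := by
        intro p r c hr hc hm hr0
        by_cases hc0 : c 0 = 0
        · rw [mnr_col_zero]
          · apply mul_pos
            · rw [hr0, hc0]
              exact hpos 0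
            · apply hB
              · intro i j hij; exact hr (Fin.succ_lt_succ_iff.mpr hij)
              · intro i j hij; exact hc (Fin.succ_lt_succ_iff.mpr hij)
              · intro i; exact hm _
              · exact one_le_succ hc
          · intro i
            have h1 := one_le_succ hr i
            obtain ⟨n, hn⟩ : ∃ n, r i.succ = n + 1 := ⟨r i.succ - 1, by omega⟩
            rw [hn, hc0]
            exact nev_col f hne n
        · exact hB _ r c hr hc hm (one_le_of_ne hc hc0)
      have hD : ∀ (r c : Fin (p + 1) → ℕ), StrictMono r → StrictMono c →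
          (∀ i, c i < m + 1) → 0 ≤ mnr (nev f) r c := by
        intro r c hr hc hm
        by_cases hr0 : r 0 = 0
        · exact (hC p r c hr hc hm hr0).le
        · by_cases hc0 : c 0 = 0
          · rw [mnr_col_eq_zero 0]
            intro i
            have h1 := one_le_of_ne hr hr0 i
            obtain ⟨n, hn⟩ : ∃ n, r i = n + 1 := ⟨r i - 1, by omega⟩
            rw [hn, hc0]
            exact nev_col f hne n
          · exact (hB _ r c hr hc hm (one_le_of_ne hc hc0)).le
      refine lt_of_lt_of_le (hC p r c hr hc hm hr0) ?_
      apply mnr_rowop' (fun n => f (n + 1) 0 / f n 0)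
      · intro n; exact (div_pos (hpos _) (hpos _)).le
      · intro k; rfl
      · intro n k
        simp only [nev]
        ring
      · intro r hr
        exact hD r c hr hc hm
      · exact hr
    intro f hf p r c hr hc hm
    cases p with
    | zero => rw [mnr_zero]; exact zero_lt_one
    | succ p =>
      have h1 := claim (fun n k => f (r 0 + n) k) (by
        intro n p c hc hm
        have h2 := hf (r 0 + n) p c hc hm
        refine lt_of_lt_of_eq h2 ?_
        apply mnr_congr
        intro i j
        rw [add_assoc]) p (fun i => r i - r 0) c (by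
        intro i j hij
        have h2 := hr hij
        have h3 : r 0 ≤ r i := hr.monotone (Fin.zero_le i)
        simp only
        omega) hc hm (by simp)
      refine lt_of_lt_of_eq h1 ?_
      apply mnr_congr
      intro i j
      have h3 : r 0 ≤ r i := hr.monotone (Fin.zero_le i)
      have h4 : r 0 + (r i - r 0) = r i := by omega
      simp only [h4]

end B0105e
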